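import Pool.Agent.H37.PV.QE
import Pool.Agent.H24.FD.UDsum

/-!
PV Div: divergence of the sums of reciprocals.

`deg_one_div`: by `np_sum` (P1, H24/FD/DegOne) `Σ_p np K p p^(-s) ≥ log (1/(s-1)) - C`, and `np K p ≤ [K:ℚ]` (`np_le`), so
`Σ_{p : 0 < np K p} p^(-s) ≥ (log (1/(s-1)) - C)/[K:ℚ]`; if the sum of `1/p` converged, `p^(-s) ≤ 1/p` would bound the left side
(`exists_log_large`).
`nonres_div`: `K' = Q2 K l`. For `s ∈ (1,2)`, with `R` the residues: `Σ_{p ∤ 2l, l ∈ R_p} np K p p^(-s) ≤ (1/2) Σ_p np K' p p^(-s)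
≤ (1/2) log (1/(s-1)) + C` (`two_np_le`, `np_sum`), and `Σ_{p ∣ 2l} np K p p^(-s)` is at most `[K:ℚ] (2 l + 1)`, so
`Σ_{p : l non-residue} np K p p^(-s) ≥ (1/2) log (1/(s-1)) - C'`. Then as before.  Compare `p2_point`, `p2_sum` in H24/FD/Split.lean.
-/

set_option autoImplicit false

namespace Pool.Agent.H37.PV

open NumberField Pool.Agent.H24.FD

/-- the term of the Dirichlet sum -/
private noncomputable def tG (G : ℕ → Prop) (s : ℝ) (p : Nat.Primes) : ℝ :=
  open Classical in if G p then ((p : ℕ) : ℝ) ^ (-s) else 0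

private theorem dS_eq (G : ℕ → Prop) (s : ℝ) : dS G s = ∑' p : Nat.Primes, tG G s p := rfl

private theorem tG_summable (G : ℕ → Prop) {s : ℝ} (hs : 1 < s) : Summable (tG G s) :=
  dS_summable G hs

private theorem tG_pos {G : ℕ → Prop} (s : ℝ) {p : Nat.Primes} (h : G p) :
    tG G s p = ((p : ℕ) : ℝ) ^ (-s) := if_pos h

private theorem tG_neg {G : ℕ → Prop} (s : ℝ) {p : Nat.Primes} (h : ¬ G p) : tG G s p = 0 :=
  if_neg h

private theorem tG_nonneg (G : ℕ → Prop) (s : ℝ) (p : Nat.Primes) : 0 ≤ tG G s p := by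
  by_cases h : G p
  · rw [tG_pos s h]
    exact Real.rpow_nonneg (Nat.cast_nonneg _) _
  · rw [tG_neg s h]

private theorem le_summable (B : ℕ) :
    Summable (fun p : Nat.Primes => if (p : ℕ) ≤ B then (1 : ℝ) else 0) := by
  have h : Summable (fun n : ℕ => if n ≤ B then (1 : ℝ) else 0) := by
    apply summable_of_ne_finset_zero (s := Finset.range (B + 1))
    intro b hb
    rw [Finset.mem_range, not_lt] at hb
    exact if_neg (by omega)
  exact h.comp_injective (i := fun p : Nat.Primes => (p : ℕ)) (fun a b hab => Subtype.ext hab)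

private theorem rpow_le_inv {s : ℝ} (hs : 1 < s) (p : Nat.Primes) :
    ((p : ℕ) : ℝ) ^ (-s) ≤ 1 / ((p : ℕ) : ℝ) := by
  have h1 : (1 : ℝ) ≤ ((p : ℕ) : ℝ) := by exact_mod_cast p.2.one_lt.le
  have h2 := Real.rpow_le_rpow_of_exponent_le h1 (show -s ≤ -1 by linarith)
  rw [Real.rpow_neg_one] at h2
  rw [one_div]
  exact h2

private theorem rpow_le_one' {s : ℝ} (hs : 1 < s) (p : Nat.Primes) :
    ((p : ℕ) : ℝ) ^ (-s) ≤ 1 :=
  Real.rpow_le_one_of_one_le_of_nonpos (by exact_mod_cast p.2.one_lt.le) (by linarith)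

/-- the small primes contribute a bounded amount -/
private theorem dS_le_bdd (B : ℕ) : ∃ M : ℝ, ∀ s : ℝ, 1 < s → dS (fun q : ℕ => q ≤ B) s ≤ M := by
  refine ⟨∑' p : Nat.Primes, (if (p : ℕ) ≤ B then (1 : ℝ) else 0), fun s hs => ?_⟩
  unfold dS
  refine (dS_summable (fun q : ℕ => q ≤ B) hs).tsum_le_tsum (fun p => ?_) (le_summable B)
  by_cases h : (p : ℕ) ≤ B
  · rw [if_pos h, if_pos h]
    exact rpow_le_one' hs p
  · rw [if_neg h, if_neg h]

open Classical in
private theorem not_summable_of_dS {G : ℕ → Prop} {δ C : ℝ} (hδ : 0 < δ)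
    (h : ∀ s : ℝ, 1 < s → s < 2 → δ * Real.log (1 / (s - 1)) - C ≤ dS G s) (B : ℕ) :
    ¬ Summable (fun q : ℕ => if q.Prime ∧ B < q ∧ G q then (1 : ℝ) / q else 0) := by
  intro hS
  have hS' : Summable (fun p : Nat.Primes =>
      if (p : ℕ).Prime ∧ B < (p : ℕ) ∧ G (p : ℕ) then (1 : ℝ) / ((p : ℕ) : ℝ) else 0) :=
    hS.comp_injective (i := fun p : Nat.Primes => (p : ℕ)) (fun a b hab => Subtype.ext hab)
  have hg := (le_summable B).add hS'
  obtain ⟨M, hM⟩ : ∃ M : ℝ, M = ∑' p : Nat.Primes, ((if (p : ℕ) ≤ B then (1 : ℝ) else 0) +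
      if (p : ℕ).Prime ∧ B < (p : ℕ) ∧ G (p : ℕ) then (1 : ℝ) / ((p : ℕ) : ℝ) else 0) := ⟨_, rfl⟩
  obtain ⟨s, hs, hs2, hs3⟩ := exists_log_large ((C + M) / δ)
  have h1 := h s hs hs2
  have h2 : dS G s ≤ M := by
    rw [hM]
    unfold dS
    refine (dS_summable G hs).tsum_le_tsum (fun p => ?_) hg
    have hx1 := rpow_le_one' hs p
    have hx2 := rpow_le_inv hs p
    have hx3 : (0 : ℝ) ≤ 1 / ((p : ℕ) : ℝ) := by positivity
    by_cases hG : G (p : ℕ)
    · by_cases hB : (p : ℕ) ≤ B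
      · rw [if_pos hG, if_pos hB, if_neg (show ¬ ((p : ℕ).Prime ∧ B < (p : ℕ) ∧ G (p : ℕ)) from
          fun h' => absurd h'.2.1 (by omega))]
        linarith
      · rw [if_pos hG, if_neg hB, if_pos ⟨p.2, by omega, hG⟩]
        linarith
    · rw [if_neg hG, if_neg (show ¬ ((p : ℕ).Prime ∧ B < (p : ℕ) ∧ G (p : ℕ)) from fun h' => hG h'.2.2)]
      split_ifs
      · norm_num
      · norm_num
  rw [div_lt_iff₀ hδ] at hs3
  linarith

/-- pointwise inequality for `deg_one_div` -/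
private theorem one_point (K : Type*) [Field K] [NumberField K] (s : ℝ) (p : Nat.Primes) :
    (np K p : ℝ) * ((p : ℕ) : ℝ) ^ (-s) ≤
      (Module.finrank ℚ K : ℝ) * tG (fun q => 0 < np K q) s p := by
  have hx : 0 ≤ ((p : ℕ) : ℝ) ^ (-s) := Real.rpow_nonneg (Nat.cast_nonneg _) _
  have hnp : (np K p : ℝ) ≤ (Module.finrank ℚ K : ℝ) := by
    exact_mod_cast np_le K p p.2
  rcases Nat.eq_zero_or_pos (np K p) with h | h
  · rw [h, Nat.cast_zero, zero_mul]
    exact mul_nonneg (Nat.cast_nonneg _) (tG_nonneg _ _ _)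
  · rw [tG_pos s (G := fun q => 0 < np K q) h]
    exact mul_le_mul_of_nonneg_right hnp hx

/-- pointwise inequality for `nonres_div` -/
private theorem two_point (K : Type*) [Field K] [NumberField K] (l : ℕ) (hl : l.Prime)
    [hF : Fact (∀ r : K, r ^ 2 ≠ (l : K) + 0 * r)] (s : ℝ) (p : Nat.Primes) :
    (np K p : ℝ) * ((p : ℕ) : ℝ) ^ (-s) ≤
      (1 / 2) * ((np (Q2 K l) p : ℝ) * ((p : ℕ) : ℝ) ^ (-s)) +
        ((Module.finrank ℚ K : ℝ) *
            tG (fun q => 0 < np K q ∧ ¬ IsSquare ((l : ℕ) : ZMod q)) s p +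
          (Module.finrank ℚ K : ℝ) * tG (fun q : ℕ => q ≤ 2 * l) s p) := by
  obtain ⟨G, hG⟩ : ∃ G : ℕ → Prop, G = fun q => 0 < np K q ∧ ¬ IsSquare ((l : ℕ) : ZMod q) :=
    ⟨_, rfl⟩
  obtain ⟨T, hT⟩ : ∃ T : ℕ → Prop, T = fun q => q ≤ 2 * l := ⟨_, rfl⟩
  rw [← hG, ← hT]
  obtain ⟨x, hxe⟩ : ∃ x : ℝ, x = ((p : ℕ) : ℝ) ^ (-s) := ⟨_, rfl⟩
  have hp : (p : ℕ).Prime := p.2
  have hx : 0 ≤ x := by
    rw [hxe]
    exact Real.rpow_nonneg (Nat.cast_nonneg _) _
  have hnp : (np K p : ℝ) ≤ (Module.finrank ℚ K : ℝ) := by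
    exact_mod_cast np_le K p hp
  have hn0 : (0 : ℝ) ≤ (Module.finrank ℚ K : ℝ) := Nat.cast_nonneg _
  have hnq0 : (0 : ℝ) ≤ np (Q2 K l) p := Nat.cast_nonneg _
  rw [← hxe]
  have hnx : (np K p : ℝ) * x ≤ (Module.finrank ℚ K : ℝ) * x := mul_le_mul_of_nonneg_right hnp hx
  have hnq : 0 ≤ (1 / 2) * ((np (Q2 K l) p : ℝ) * x) := by positivity
  have hg0 : 0 ≤ (Module.finrank ℚ K : ℝ) * tG G s p := mul_nonneg hn0 (tG_nonneg _ _ _)
  have ht0 : 0 ≤ (Module.finrank ℚ K : ℝ) * tG T s p := mul_nonneg hn0 (tG_nonneg _ _ _)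
  by_cases hpT : (p : ℕ) ≤ 2 * l
  · have hT' : T p := by
      rw [hT]
      exact hpT
    rw [tG_pos s hT', ← hxe]
    linarith
  · have hl0 : 0 < l := hl.pos
    have h2 : (p : ℕ) ≠ 2 := by
      have := hl.two_le
      omega
    have hpl : ¬ (p : ℕ) ∣ l := by
      intro h
      have := Nat.le_of_dvd hl0 h
      omega
    by_cases hsq : IsSquare ((l : ℕ) : ZMod (p : ℕ))
    · have h5 := two_np_le K l hl0 p hp h2 hpl hsq
      have h6 : (2 : ℝ) * np K p ≤ np (Q2 K l) p := by exact_mod_cast h5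
      have h7 : (2 : ℝ) * np K p * x ≤ np (Q2 K l) p * x := mul_le_mul_of_nonneg_right h6 hx
      linarith
    · rcases Nat.eq_zero_or_pos (np K p) with h8 | h8
      · have h9 : (np K p : ℝ) * x = 0 := by rw [h8, Nat.cast_zero, zero_mul]
        linarith
      · have h9 : G p := by
          rw [hG]
          exact ⟨h8, hsq⟩
        rw [tG_pos s h9, ← hxe]
        linarith

open Classical in
theorem deg_one_div (K : Type*) [Field K] [NumberField K] (B : ℕ) :
    ¬ Summable (fun q : ℕ => if q.Prime ∧ B < q ∧ 0 < np K q then (1 : ℝ) / q else 0) := by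
  obtain ⟨C, hC⟩ := np_sum K
  have hn0 : (0 : ℝ) < Module.finrank ℚ K := by exact_mod_cast Module.finrank_pos
  have key := not_summable_of_dS (G := fun q => 0 < np K q)
    (δ := 1 / (Module.finrank ℚ K : ℝ)) (C := C / (Module.finrank ℚ K : ℝ)) (by positivity)
    (fun s hs hs2 => by
      have h1 := (abs_le.1 (hC s hs hs2)).1
      have h2 := (np_summable K hs).tsum_le_tsum (fun p => one_point K s p)
        ((tG_summable (fun q => 0 < np K q) hs).mul_left _)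
      rw [tsum_mul_left, ← dS_eq] at h2
      have h3 : 1 / (Module.finrank ℚ K : ℝ) * Real.log (1 / (s - 1)) -
          C / (Module.finrank ℚ K : ℝ) =
          (Real.log (1 / (s - 1)) - C) / (Module.finrank ℚ K : ℝ) := by ring
      rw [h3, div_le_iff₀ hn0]
      linarith) B
  intro hS
  apply key
  refine hS.congr fun q => ?_
  by_cases hq : q.Prime ∧ B < q ∧ 0 < np K q
  · rw [if_pos hq, if_pos hq]
  · rw [if_neg hq, if_neg hq]

open Classical in
theorem nonres_div (K : Type*) [Field K] [NumberField K] (l : ℕ) (hl : l.Prime)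
    (h : ∀ x : K, x ^ 2 ≠ (l : K)) (B : ℕ) :
    ¬ Summable (fun q : ℕ => if q.Prime ∧ B < q ∧ 0 < np K q ∧ ¬ IsSquare ((l : ℕ) : ZMod q)
      then (1 : ℝ) / q else 0) := by
  have hfact := q2_fact K l h
  have hnf := q2_numberField K l
  obtain ⟨C1, hC1⟩ := np_sum K
  obtain ⟨C2, hC2⟩ := np_sum (Q2 K l)
  obtain ⟨M, hM⟩ := dS_le_bdd (2 * l)
  obtain ⟨n, hn⟩ : ∃ n : ℝ, n = (Module.finrank ℚ K : ℝ) := ⟨_, rfl⟩
  have hn0 : 0 < n := by
    rw [hn]
    exact_mod_cast Module.finrank_pos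
  have key := not_summable_of_dS (G := fun q => 0 < np K q ∧ ¬ IsSquare ((l : ℕ) : ZMod q))
    (δ := 1 / (2 * n)) (C := (C1 + C2 / 2 + n * M) / n) (by positivity)
    (fun s hs hs2 => by
      have h4 := (abs_le.1 (hC1 s hs hs2)).1
      have h5 := (abs_le.1 (hC2 s hs hs2)).2
      have h6 := hM s hs
      have hS1 := np_summable K hs
      have hS2 := np_summable (Q2 K l) hs
      have hS3 := tG_summable (fun q => 0 < np K q ∧ ¬ IsSquare ((l : ℕ) : ZMod q)) hs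
      have hS4 := tG_summable (fun q : ℕ => q ≤ 2 * l) hs
      have hle := fun p : Nat.Primes => two_point K l hl s p
      rw [← hn] at hle
      have hsum := hS1.tsum_le_tsum hle
        ((hS2.mul_left _).add ((hS3.mul_left _).add (hS4.mul_left _)))
      rw [(hS2.mul_left _).tsum_add ((hS3.mul_left _).add (hS4.mul_left _)),
        (hS3.mul_left _).tsum_add (hS4.mul_left _), tsum_mul_left, tsum_mul_left, tsum_mul_left,
        ← dS_eq, ← dS_eq] at hsum
      have h7 : n * dS (fun q : ℕ => q ≤ 2 * l) s ≤ n * M := mul_le_mul_of_nonneg_left h6 hn0.le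
      have h8 : 1 / (2 * n) * Real.log (1 / (s - 1)) - (C1 + C2 / 2 + n * M) / n =
          (1 / 2 * Real.log (1 / (s - 1)) - (C1 + C2 / 2 + n * M)) / n := by
        field_simp
      rw [h8, div_le_iff₀ hn0]
      linarith) B
  intro hS
  apply key
  refine hS.congr fun q => ?_
  by_cases hq : q.Prime ∧ B < q ∧ 0 < np K q ∧ ¬ IsSquare ((l : ℕ) : ZMod q)
  · rw [if_pos hq, if_pos hq]
  · rw [if_neg hq, if_neg hq]

end Pool.Agent.H37.PV
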