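import Mathlib

/-!
PV FinSq: only finitely many primes are squares in a number field.

PROOF. A number field has finitely many subfields (`Field.exists_primitive_element`,
`Field.finite_intermediateField_of_exists_primitive_element` or similar). For a prime `l` with `x_l ^ 2 = l` in `K` let
`E_l = ℚ⟮x_l⟯`. If `E_l = E_m` for different primes `l, m` then `x_m = a + b x_l` with rational `a, b`, so
`m = a² + b² l + 2 a b x_l`; `x_l` is irrational, so `a b = 0`, and `m = a²` or `m = b² l`: impossible. So `l ↦ E_l` is injective.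
(Or: a prime `l` which is a square in `K` ramifies, so it divides the discriminant.)
-/

set_option autoImplicit false

namespace Pool.Agent.H37.PV

private lemma not_sq {l : ℕ} (hl : l.Prime) (q : ℚ) : q ^ 2 ≠ (l : ℚ) := by
  have : Fact l.Prime := ⟨hl⟩
  intro h
  have hq : q ≠ 0 := by
    rintro rfl
    have h1 : (l : ℚ) = 0 := by rw [← h]; ring
    exact hl.ne_zero (by exact_mod_cast h1)
  have h1 := congrArg (padicValRat l) h
  rw [padicValRat.pow, padicValRat.self hl.one_lt] at h1
  push_cast at h1
  omega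

private lemma not_sq_mul {l m : ℕ} (hl : l.Prime) (hm : m.Prime) (hne : l ≠ m) (q : ℚ) :
    q ^ 2 * (l : ℚ) ≠ (m : ℚ) := by
  have : Fact l.Prime := ⟨hl⟩
  have : Fact m.Prime := ⟨hm⟩
  intro h
  have hl0 : (l : ℚ) ≠ 0 := by exact_mod_cast hl.ne_zero
  have hq : q ≠ 0 := by
    rintro rfl
    have h1 : (m : ℚ) = 0 := by rw [← h]; ring
    exact hm.ne_zero (by exact_mod_cast h1)
  have h1 := congrArg (padicValRat l) h
  rw [padicValRat.mul (pow_ne_zero 2 hq) hl0, padicValRat.pow, padicValRat.self hl.one_lt,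
    padicValRat.of_nat, padicValNat_primes hne] at h1
  push_cast at h1
  omega

/-- Elements of `ℚ⟮x⟯` for `x ^ 2` rational. -/
private lemma exists_coords {K : Type*} [Field K] [NumberField K] {x y : K} {l : ℕ}
    (hx : x ^ 2 = (l : K)) (hy : y ∈ IntermediateField.adjoin ℚ {x}) :
    ∃ a b : ℚ, y = (a : K) + (b : K) * x := by
  have hint : IsIntegral ℚ x := Algebra.IsIntegral.isIntegral x
  have h1 : y ∈ (IntermediateField.adjoin ℚ {x}).toSubalgebra := hy
  rw [IntermediateField.adjoin_simple_toSubalgebra_of_isAlgebraic hint.isAlgebraic,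
    Algebra.adjoin_singleton_eq_range_aeval] at h1
  obtain ⟨p, hp⟩ := h1
  have hp' : Polynomial.aeval x p = y := hp
  have key : ∀ p : Polynomial ℚ, ∃ a b : ℚ, Polynomial.aeval x p = (a : K) + (b : K) * x := by
    intro p
    induction p using Polynomial.induction_on' with
    | add p q hp hq =>
      obtain ⟨a, b, h⟩ := hp
      obtain ⟨c, d, h'⟩ := hq
      refine ⟨a + c, b + d, ?_⟩
      rw [map_add, h, h']
      push_cast
      ring
    | monomial n c =>
      rw [Polynomial.aeval_monomial]
      have hc : (algebraMap ℚ K) c = (c : K) := rfl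
      rw [hc]
      obtain ⟨k, hk⟩ := Nat.even_or_odd' n
      rcases hk with rfl | rfl
      · refine ⟨c * (l : ℚ) ^ k, 0, ?_⟩
        rw [pow_mul, hx]
        push_cast
        ring
      · refine ⟨0, c * (l : ℚ) ^ k, ?_⟩
        rw [pow_succ, pow_mul, hx]
        push_cast
        ring
  obtain ⟨a, b, h⟩ := key p
  exact ⟨a, b, by rw [← hp', h]⟩

theorem finite_sq (K : Type*) [Field K] [NumberField K] :
    {l : ℕ | l.Prime ∧ ∃ x : K, x ^ 2 = (l : K)}.Finite := by
  have hfin : Finite (IntermediateField ℚ K) :=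
    Field.finite_intermediateField_of_exists_primitive_element ℚ K
      (Field.exists_primitive_element ℚ K)
  have hx : ∀ l : {l : ℕ | l.Prime ∧ ∃ x : K, x ^ 2 = (l : K)},
      ∃ x : K, x ^ 2 = ((l : ℕ) : K) := fun l => l.2.2
  choose x hx using hx
  have hinj : Function.Injective
      (fun l : {l : ℕ | l.Prime ∧ ∃ x : K, x ^ 2 = (l : K)} =>
        IntermediateField.adjoin ℚ {x l}) := by
    intro l m h
    by_contra hne
    have hne' : (l : ℕ) ≠ (m : ℕ) := fun h => hne (Subtype.ext h)
    have hmem : x m ∈ IntermediateField.adjoin ℚ {x l} := by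
      have h1 : IntermediateField.adjoin ℚ {x l} = IntermediateField.adjoin ℚ {x m} := h
      rw [h1]
      exact IntermediateField.mem_adjoin_simple_self ℚ (x m)
    obtain ⟨a, b, hab⟩ := exists_coords (hx l) hmem
    have h2 : ((m : ℕ) : K) = (a : K) ^ 2 + (b : K) ^ 2 * ((l : ℕ) : K) +
        2 * (a : K) * (b : K) * x l := by
      rw [← hx m, hab, ← hx l]
      ring
    by_cases ha : a = 0
    · subst ha
      have h3 : (((b ^ 2 * ((l : ℕ) : ℚ) : ℚ)) : K) = (((m : ℕ) : ℚ) : K) := by
        push_cast
        rw [h2]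
        push_cast
        ring
      exact not_sq_mul l.2.1 m.2.1 hne' b (Rat.cast_injective h3)
    by_cases hb : b = 0
    · subst hb
      have h3 : (((a ^ 2 : ℚ)) : K) = (((m : ℕ) : ℚ) : K) := by
        push_cast
        rw [h2]
        push_cast
        ring
      exact not_sq m.2.1 a (Rat.cast_injective h3)
    · have ha' : (a : K) ≠ 0 := by exact_mod_cast ha
      have hb' : (b : K) ≠ 0 := by exact_mod_cast hb
      have h3 : x l = (((((m : ℕ) : ℚ) - a ^ 2 - b ^ 2 * ((l : ℕ) : ℚ)) / (2 * a * b) : ℚ) : K) := by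
        push_cast
        rw [h2]
        field_simp
        ring
      have h4 := hx l
      rw [h3] at h4
      have h5 : ((((((m : ℕ) : ℚ) - a ^ 2 - b ^ 2 * ((l : ℕ) : ℚ)) / (2 * a * b)) ^ 2 : ℚ) : K) =
          (((l : ℕ) : ℚ) : K) := by
        rw [Rat.cast_pow, h4]
        push_cast
        rfl
      exact not_sq l.2.1 _ (Rat.cast_injective h5)
  have := Finite.of_injective _ hinj
  exact Set.toFinite _

end Pool.Agent.H37.PV
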