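import Pool.Agent.H24.FD.DegOne

/-!
PV Root: a number field for the roots of a polynomial.

PROOF. `K = AdjoinRoot (factor (g.map (Int.castRingHom ℚ)))` (`Polynomial.factor`, irreducible since the degree is `≥ 1`), `θ` the
root, so `aeval θ g = 0`. `a` = leading coefficient, `d` = degree of `g`. `a θ` is integral
(`Polynomial.scaleRoots`, `isIntegral_leadingCoeff_smul` / `IsLocalization.scaleRoots...`). For a prime `q ∤ a` and `φ : 𝓞 K →+* ZMod q`
let `t = φ (a θ) / a` in `ZMod q`; multiplying by `a ^ d`: `a^d g(θ) = Σ c_i a^(d-i) (a θ)^i = 0` in `𝓞 K`, so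
`Σ c_i a^(d-i) (a t)^i = 0`, that is `a^d g(t) = 0` in `ZMod q`, `g(t) = 0`. `B = |a|`.
-/

set_option autoImplicit false

namespace Pool.Agent.H37.PV

open NumberField Polynomial Pool.Agent.H24.FD

private theorem root_aux (g : ℤ[X]) (K : Type) [Field K] [NumberField K] (θ : K) (hθ : aeval θ g = 0) (q : ℕ)
    (hq : q.Prime) (hB : g.leadingCoeff.natAbs < q) (hg0 : g ≠ 0) (φ : 𝓞 K →+* ZMod q) :
    ∃ a : ℤ, (q : ℤ) ∣ g.eval a := by
  haveI : Fact q.Prime := ⟨hq⟩
  set a : ℤ := g.leadingCoeff with ha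
  have ha0 : a ≠ 0 := leadingCoeff_ne_zero.2 hg0
  have hint : IsIntegral ℤ (a • θ) := isIntegral_leadingCoeff_smul g θ hθ
  let α : 𝓞 K := ⟨a • θ, hint⟩
  have hα : (algebraMap (𝓞 K) K) α = algebraMap ℤ K a * θ := by
    show a • θ = _
    rw [Algebra.smul_def]
  have h1 : aeval (algebraMap ℤ K a * θ) (scaleRoots g a) = 0 := scaleRoots_aeval_eq_zero hθ
  have h2 : aeval α (scaleRoots g a) = 0 := by
    apply (FaithfulSMul.algebraMap_injective (𝓞 K) K)
    rw [map_zero, ← h1, ← hα, aeval_algebraMap_apply]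
  have h3 : eval₂ (Int.castRingHom (ZMod q)) (φ α) (scaleRoots g a) = 0 := by
    have := congrArg φ h2
    rw [map_zero, aeval_def, hom_eval₂] at this
    have hc : φ.comp (algebraMap ℤ (𝓞 K)) = Int.castRingHom (ZMod q) := RingHom.ext_int _ _
    rwa [hc] at this
  have haq : ((a : ℤ) : ZMod q) ≠ 0 := by
    intro h
    rw [ZMod.intCast_zmod_eq_zero_iff_dvd] at h
    have := Int.natAbs_dvd_natAbs.2 h
    simp only [Int.natAbs_natCast] at this
    have h4 := Nat.le_of_dvd (Int.natAbs_pos.2 ha0) this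
    omega
  set t : ZMod q := (a : ZMod q)⁻¹ * φ α with ht
  have hat : (Int.castRingHom (ZMod q)) a * t = φ α := by
    rw [ht, ← mul_assoc]
    simp only [Int.coe_castRingHom]
    rw [mul_inv_cancel₀ haq, one_mul]
  have h5 := scaleRoots_eval₂_mul (p := g) (Int.castRingHom (ZMod q)) t a
  rw [hat, h3] at h5
  have h6 : eval₂ (Int.castRingHom (ZMod q)) t g = 0 := by
    rcases mul_eq_zero.1 h5.symm with h | h
    · exact absurd h (pow_ne_zero _ haq)
    · exact h
  refine ⟨(t.val : ℤ), ?_⟩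
  rw [← ZMod.intCast_zmod_eq_zero_iff_dvd]
  have h7 : ((t.val : ℤ) : ZMod q) = t := by
    rw [Int.cast_natCast, ZMod.natCast_zmod_val]
  have h8 := eval₂_at_apply (p := g) (Int.castRingHom (ZMod q)) (t.val : ℤ)
  simp only [Int.coe_castRingHom] at h8
  rw [← h8]
  rw [h7]
  exact h6

theorem root_of_np (g : ℤ[X]) (hd : 1 ≤ g.natDegree) :
    ∃ (K : Type) (_ : Field K) (_ : NumberField K) (B : ℕ), ∀ q : ℕ, q.Prime → B < q → 0 < np K q →
      ∃ a : ℤ, (q : ℤ) ∣ g.eval a := by
  classical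
  set G : ℚ[X] := g.map (Int.castRingHom ℚ) with hG
  have hg0 : g ≠ 0 := by rintro rfl; simp at hd
  have hGd : G.natDegree ≠ 0 := by
    rw [hG, natDegree_map_eq_of_injective (Int.castRingHom ℚ).injective_int]
    omega
  haveI : Fact (Irreducible G.factor) := ⟨irreducible_factor G⟩
  have hf0 : G.factor ≠ 0 := (irreducible_factor G).ne_zero
  let K : Type := AdjoinRoot G.factor
  letI : Field K := AdjoinRoot.instField
  haveI : CharZero K := charZero_of_injective_algebraMap (algebraMap ℚ K).injective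
  haveI : FiniteDimensional ℚ K := (AdjoinRoot.powerBasis hf0).finite
  haveI : NumberField K := { to_charZero := inferInstance, to_finiteDimensional := inferInstance }
  let θ : K := AdjoinRoot.root G.factor
  have hθG : eval₂ (AdjoinRoot.of G.factor) (AdjoinRoot.root G.factor) G = 0 := by
    obtain ⟨h, hh⟩ := factor_dvd_of_natDegree_ne_zero hGd
    have h1 : eval₂ (AdjoinRoot.of G.factor) (AdjoinRoot.root G.factor) (G.factor * h) = 0 := by
      rw [eval₂_mul, AdjoinRoot.eval₂_root, zero_mul]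
    exact (congrArg (eval₂ (AdjoinRoot.of G.factor) (AdjoinRoot.root G.factor)) hh).trans h1
  have hθ : aeval θ g = 0 := by
    have h2 : eval₂ ((AdjoinRoot.of G.factor).comp (Int.castRingHom ℚ)) (AdjoinRoot.root G.factor) g = 0 := by
      rw [← eval₂_map]
      exact hθG
    have h3 : (AdjoinRoot.of G.factor).comp (Int.castRingHom ℚ) = algebraMap ℤ K := RingHom.ext_int _ _
    rw [h3] at h2
    exact h2
  refine ⟨K, inferInstance, inferInstance, g.leadingCoeff.natAbs, ?_⟩
  intro q hq hB hnp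
  obtain ⟨φ⟩ : Nonempty (𝓞 K →+* ZMod q) := by
    by_contra h
    rw [not_nonempty_iff] at h
    have : np K q = 0 := by
      unfold np
      exact Nat.card_of_isEmpty
    omega
  exact root_aux g K θ hθ q hq hB hg0 φ

end Pool.Agent.H37.PV
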