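import Pool.Agent.H37.PV.Main

/-!
PV Rat: Theorem B for rational polynomials and exponents not divisible by `3 ^ A`.

`f ∈ ℚ[X]`, `D f ∈ ℤ[X]`.  For `r < D` with `f(r)` an integer `f(D t + r) = g(t)` with `g ∈ ℤ[X]` of the same degree.
-/

set_option autoImplicit false

namespace Pool.Agent.H37.PV

open Filter Topology Finset Polynomial Pool.Agent.H37.PPC

/-- some power `f(m)^k`, `3^A ∤ k`, is an order (`f` integral) -/
def SI (A : ℕ) (f : ℤ[X]) : Set ℕ := {m | ∃ k n : ℕ, ¬ 3 ^ A ∣ k ∧ (n : ℤ) = f.eval (m : ℤ) ^ k ∧ IsOrder n}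

theorem si_zero (A : ℕ) : ∀ f : ℤ[X], 1 ≤ f.natDegree → Z (SI A f) := by
  induction A with
  | zero =>
    intro f _
    refine (Z_finite (Set.finite_empty)).mono ?_
    rintro m ⟨k, n, h, -, -⟩
    exact absurd (by simp) h
  | succ A ih =>
    intro f hf
    have h1 := ih (f ^ 3) (by rw [natDegree_pow]; omega)
    refine ((sa_zero f hf).union h1).mono ?_
    rintro m ⟨k, n, h, hn, hO⟩
    by_cases h3 : 3 ∣ k
    · right
      obtain ⟨j, rfl⟩ := h3
      refine ⟨j, n, ?_, ?_, hO⟩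
      · rintro ⟨i, hi⟩
        exact h ⟨i, by rw [hi]; ring⟩
      · rw [hn, eval_pow, ← pow_mul]
    · left
      exact ⟨k, n, h3, hn, hO⟩

/-- some power `f(m)^k`, `3^A ∤ k`, is an order (`f` rational) -/
def SQ (A : ℕ) (f : ℚ[X]) : Set ℕ := {m | ∃ k n : ℕ, ¬ 3 ^ A ∣ k ∧ (n : ℚ) = f.eval (m : ℚ) ^ k ∧ IsOrder n}

theorem den_mem (n : ℕ) (y : ℚ) (k : ℕ) (hk : k ≠ 0) (h : (n : ℚ) = y ^ k) : ∃ z : ℤ, (z : ℚ) = y := by
  have h1 : IsIntegral ℤ (y ^ k) := by
    rw [← h]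
    exact isIntegral_algebraMap (R := ℤ) (x := (n : ℤ))
  have h2 : IsIntegral ℤ y := IsIntegral.of_pow (Nat.pos_of_ne_zero hk) h1
  obtain ⟨z, hz⟩ := IsIntegrallyClosed.isIntegral_iff.1 h2
  exact ⟨z, by simpa using hz⟩

/-- common denominator -/
theorem exists_den (f : ℚ[X]) : ∃ (D : ℕ) (F : ℤ[X]), 0 < D ∧ F.map (Int.castRingHom ℚ) = C (D : ℚ) * f := by
  obtain ⟨c, hc, hb⟩ := IsLocalization.integerNormalization_spec (nonZeroDivisors ℤ) f
  have hc0 : c ≠ 0 := nonZeroDivisors.ne_zero hc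
  have hb' : (IsLocalization.integerNormalization (nonZeroDivisors ℤ) f).map (Int.castRingHom ℚ) = C (c : ℚ) * f := by
    have h1 : algebraMap ℤ ℚ = Int.castRingHom ℚ := rfl
    rw [h1] at hb
    rw [hb]
    ext i
    simp [coeff_C_mul]
  refine ⟨c.natAbs, C (c.sign) * IsLocalization.integerNormalization (nonZeroDivisors ℤ) f, Int.natAbs_pos.2 hc0, ?_⟩
  rw [Polynomial.map_mul, hb', map_C, ← mul_assoc, ← C_mul]
  congr 2
  have h2 : ((c.sign * c : ℤ) : ℚ) = ((c.natAbs : ℤ) : ℚ) := by rw [Int.sign_mul_self_eq_natAbs]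
  rw [Int.cast_mul] at h2
  rw [eq_intCast, h2]
  norm_num

theorem comp_dvd (F a b : ℤ[X]) : a - b ∣ F.comp a - F.comp b := by
  have := (F.map (C : ℤ →+* ℤ[X])).sub_dvd_eval_sub a b
  simpa [eval_map, comp] using this

/-- values of `f` on a residue class -/
theorem on_class (f : ℚ[X]) : ∃ D : ℕ, 0 < D ∧ ∀ r : ℕ, ∃ G : ℤ[X],
    f.comp (C (D : ℚ) * X + C (r : ℚ)) = C (f.eval (r : ℚ)) + X * G.map (Int.castRingHom ℚ) := by
  obtain ⟨D, F, hD, hF⟩ := exists_den f
  refine ⟨D, hD, fun r => ?_⟩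
  have h1 := comp_dvd F (C (D : ℤ) * X + C (r : ℤ)) (C (r : ℤ))
  obtain ⟨G, hG⟩ := h1
  refine ⟨G, ?_⟩
  have h2 := congrArg (Polynomial.map (Int.castRingHom ℚ)) hG
  rw [Polynomial.map_sub, Polynomial.map_comp, Polynomial.map_comp, Polynomial.map_mul, Polynomial.map_sub,
    Polynomial.map_add, Polynomial.map_mul, map_C, map_C, map_X, hF] at h2
  have hD' : (C (D : ℚ) : ℚ[X]) ≠ 0 := by
    rw [Ne, C_eq_zero]
    exact_mod_cast hD.ne'
  apply mul_left_cancel₀ hD'
  simp only [eq_intCast, Int.cast_natCast, mul_comp, C_comp, comp_C, add_sub_cancel_right, eval_mul, eval_C, C_mul] at h2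
  linear_combination h2

theorem Z_class {S : Set ℕ} (D r : ℕ) (hD : 0 < D) (T : Set ℕ) (hT : Z T)
    (h : ∀ m ∈ S, m % D = r → m / D ∈ T) : Z {m | m ∈ S ∧ m % D = r} := by
  classical
  intro ε hε
  obtain ⟨X, hX⟩ := eventually_atTop.1 (hT ε hε)
  obtain ⟨c, hc⟩ : ∃ c : ℝ, c = cnt (fun m => m ∈ T) X := ⟨_, rfl⟩
  have hfin : ∀ᶠ x : ℕ in atTop, X ≤ x / D := by
    filter_upwards [eventually_ge_atTop (X * D)] with x hx
    exact (Nat.le_div_iff_mul_le hD).2 hx
  filter_upwards [hfin] with x hx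
  have h1 : ((range (x + 1)).filter fun m => m ∈ {m | m ∈ S ∧ m % D = r}).card ≤
      ((range (x / D + 1)).filter fun m => m ∈ T).card := by
    refine card_le_card_of_injOn (fun m => m / D) ?_ ?_
    · intro m hm
      rw [coe_filter, Set.mem_ofPred_eq, mem_range] at hm
      rw [coe_filter, Set.mem_ofPred_eq, mem_range]
      refine ⟨?_, h m hm.2.1 hm.2.2⟩
      have h9 : m / D ≤ x / D := Nat.div_le_div_right (by omega)
      show m / D < x / D + 1
      omega
    · intro m hm m' hm' he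
      rw [coe_filter, Set.mem_ofPred_eq, mem_range] at hm hm'
      rw [← Nat.div_add_mod m D, ← Nat.div_add_mod m' D, hm.2.2, hm'.2.2]
      simp only at he
      rw [he]
  have h2 : cnt (fun m => m ∈ {m | m ∈ S ∧ m % D = r}) x ≤ cnt (fun m => m ∈ T) (x / D) := by
    unfold cnt
    have h3 : (((range (x + 1)).filter fun m => m ∈ {m | m ∈ S ∧ m % D = r}).card : ℝ) ≤
      ((range (x / D + 1)).filter fun m => m ∈ T).card := by exact_mod_cast h1
    convert h3
  refine h2.trans ((hX (x / D) hx).trans ?_)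
  have h4 : ((x / D : ℕ) : ℝ) ≤ x := by exact_mod_cast Nat.div_le_self x D
  exact mul_le_mul_of_nonneg_left h4 hε.le

theorem Z_biUnion (D : ℕ) (S : ℕ → Set ℕ) (h : ∀ r < D, Z (S r)) : Z {m | ∃ r < D, m ∈ S r} := by
  induction D with
  | zero =>
    refine (Z_finite (Set.finite_empty)).mono ?_
    rintro m ⟨r, hr, -⟩
    omega
  | succ D ih =>
    refine ((ih fun r hr => h r (by omega)).union (h D (by omega))).mono ?_
    rintro m ⟨r, hr, hm⟩
    rcases Nat.lt_succ_iff_lt_or_eq.1 hr with h1 | h1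
    · exact Or.inl ⟨r, h1, hm⟩
    · right
      rwa [← h1]

theorem sq_zero (A : ℕ) (f : ℚ[X]) (hf : 1 ≤ f.natDegree) : Z (SQ A f) := by
  obtain ⟨D, hD, hg⟩ := on_class f
  have hD0 : (D : ℚ) ≠ 0 := by exact_mod_cast hD.ne'
  have h1 : ∀ r < D, Z {m | m ∈ SQ A f ∧ m % D = r} := by
    intro r _
    obtain ⟨G, hG⟩ := hg r
    have hval : ∀ t : ℕ, f.eval ((D * t + r : ℕ) : ℚ) = f.eval (r : ℚ) + ((t * G.eval (t : ℤ) : ℤ) : ℚ) := by
      intro t
      have h2 := congrArg (Polynomial.eval (t : ℚ)) hG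
      have h3 : (G.map (Int.castRingHom ℚ)).eval (t : ℚ) = ((G.eval (t : ℤ) : ℤ) : ℚ) := by
        have h4 := eval_intCast_map (Int.castRingHom ℚ) G (t : ℤ)
        rw [Int.cast_natCast] at h4
        rw [h4, eq_intCast]
        norm_num
      rw [eval_comp, eval_add, eval_mul, eval_C, eval_C, eval_X, eval_add, eval_mul, eval_C, eval_X, h3] at h2
      push_cast
      exact h2
    by_cases hr : ∃ z : ℤ, (z : ℚ) = f.eval (r : ℚ)
    · obtain ⟨z, hz⟩ := hr
      have hdeg : 1 ≤ (C z + X * G).natDegree := by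
        by_contra hlt
        have h5 : (C z + X * G).natDegree = 0 := by omega
        obtain ⟨c, hc⟩ := natDegree_eq_zero.1 h5
        have h6 : f.comp (C (D : ℚ) * X + C (r : ℚ)) = C (c : ℚ) := by
          have h7 := congrArg (Polynomial.map (Int.castRingHom ℚ)) hc
          rw [map_C, Polynomial.map_add, Polynomial.map_mul, map_C, map_X] at h7
          rw [hG, ← hz]
          simpa using h7.symm
        have h8 := congrArg natDegree h6
        rw [natDegree_comp, natDegree_C, natDegree_linear hD0, mul_one] at h8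
        omega
      refine Z_class D r hD (SI A (C z + X * G)) (si_zero A _ hdeg) ?_
      rintro m ⟨k, n, h3, hn, hO⟩ hmr
      refine ⟨k, n, h3, ?_, hO⟩
      have h4 := hval (m / D)
      have h5 : D * (m / D) + r = m := by
        rw [← hmr]
        exact Nat.div_add_mod m D
      rw [h5, ← hz] at h4
      rw [h4] at hn
      have h6 : (n : ℤ) = (z + ((m / D : ℕ) : ℤ) * G.eval ((m / D : ℕ) : ℤ)) ^ k := by exact_mod_cast hn
      rw [h6]
      simp
    · refine (Z_finite (Set.finite_empty)).mono ?_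
      rintro m ⟨⟨k, n, h3, hn, hO⟩, hmr⟩
      apply hr
      have hk : k ≠ 0 := by
        rintro rfl
        exact h3 (dvd_zero _)
      obtain ⟨z, hz⟩ := den_mem n _ k hk hn
      have h4 := hval (m / D)
      have h5 : D * (m / D) + r = m := by
        rw [← hmr]
        exact Nat.div_add_mod m D
      rw [h5, ← hz] at h4
      refine ⟨z - ((m / D : ℕ) : ℤ) * G.eval ((m / D : ℕ) : ℤ), ?_⟩
      rw [Int.cast_sub, h4]
      ring
  refine (Z_biUnion D _ h1).mono ?_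
  intro m hm
  exact ⟨m % D, Nat.mod_lt _ hD, hm, rfl⟩

open Classical in
theorem main_rat (f : ℚ[X]) (hf : 1 ≤ f.natDegree) (A : ℕ) :
    Tendsto (fun x : ℕ => (((range (x + 1)).filter fun m : ℕ =>
      ∃ k n : ℕ, ¬ 3 ^ A ∣ k ∧ (n : ℚ) = f.eval (m : ℚ) ^ k ∧ IsOrder n).card : ℝ) / x) atTop (𝓝 0) := by
  rw [Metric.tendsto_atTop]
  intro ε hε
  obtain ⟨X, hX⟩ := eventually_atTop.1 (sq_zero A f hf (ε / 2) (by positivity))
  refine ⟨max X 1, fun x hx => ?_⟩
  have hx1 : X ≤ x := (le_max_left _ _).trans hx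
  have hx2 : 1 ≤ x := (le_max_right _ _).trans hx
  have hx0 : (0 : ℝ) < x := by exact_mod_cast hx2
  rw [Real.dist_eq, sub_zero, abs_of_nonneg (by positivity), div_lt_iff₀ hx0]
  have h1 := hX x hx1
  have h2 : cnt (fun m => m ∈ SQ A f) x = (((range (x + 1)).filter fun m : ℕ =>
      ∃ k n : ℕ, ¬ 3 ^ A ∣ k ∧ (n : ℚ) = f.eval (m : ℚ) ^ k ∧ IsOrder n).card : ℝ) := rfl
  rw [← h2]
  nlinarith

end Pool.Agent.H37.PV
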