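import Mathlib

/-!
PV Fac: algebra of integer polynomials.

(1) `bezout_int`: clear denominators in `u a + v b = 1` over `ℚ`.
(2) `simple_root`: `h` irreducible, non-constant: `h` (irreducible over `ℚ`, Gauss) is coprime to `h'` over `ℚ` (separable),
`u h + v h' = R ≠ 0`; for a prime `p > |R|` with `p ∣ h(a)`, `p ∣ h'(a)` would give `p ∣ R`.
(3) `coprime_part`: `h` irreducible non-constant, `¬ h ∣ k`: coprime over `ℚ` (`h` is primitive and irreducible over `ℚ`;
`h ∣ k` over `ℚ` gives `h ∣ k` over `ℤ`, `IsPrimitive.Int.dvd_iff_map_cast_dvd_map_cast`), `u h + v k = R ≠ 0`.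
(4) `odd_or_square`: strong induction on the degree: degree 0: `f = C c * 1 ^ 2`. Otherwise take an irreducible non-constant
`h ∣ f` and `f = h ^ e * k`, `¬ h ∣ k` (`h` prime, `FiniteMultiplicity`). `e` odd: done. `e = 2 e'`: `k` has smaller degree; by
induction either `k = h₁ ^ e₁ * k₁` with `e₁` odd, `¬ h₁ ∣ k₁`; then `¬ h₁ ∣ h` (else associated, `h ∣ k`), so
`f = h₁ ^ e₁ * (h ^ e * k₁)` and `¬ h₁ ∣ h ^ e * k₁`; or `k = C c * g ^ 2` and `f = C c * (h ^ e' * g) ^ 2`.
-/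

set_option autoImplicit false

namespace Pool.Agent.H37.PV

open Polynomial

theorem bezout_int (a b : ℤ[X])
    (h : IsCoprime (a.map (Int.castRingHom ℚ)) (b.map (Int.castRingHom ℚ))) :
    ∃ (u v : ℤ[X]) (R : ℤ), R ≠ 0 ∧ u * a + v * b = C R := by
  obtain ⟨u, v, huv⟩ := h
  obtain ⟨b1, hb1⟩ := IsLocalization.integerNormalization_map_to_map (nonZeroDivisors ℤ) u
  obtain ⟨b2, hb2⟩ := IsLocalization.integerNormalization_map_to_map (nonZeroDivisors ℤ) v
  have n1 : (b1 : ℤ) ≠ 0 := nonZeroDivisors.coe_ne_zero b1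
  have n2 : (b2 : ℤ) ≠ 0 := nonZeroDivisors.coe_ne_zero b2
  have e1 : (IsLocalization.integerNormalization (nonZeroDivisors ℤ) u).map
      (Int.castRingHom ℚ) = C ((b1 : ℤ) : ℚ) * u := by
    have h1 : (algebraMap ℤ ℚ) = Int.castRingHom ℚ := rfl
    rw [← h1, hb1, zsmul_eq_mul]
    simp
  have e2 : (IsLocalization.integerNormalization (nonZeroDivisors ℤ) v).map
      (Int.castRingHom ℚ) = C ((b2 : ℤ) : ℚ) * v := by
    have h1 : (algebraMap ℤ ℚ) = Int.castRingHom ℚ := rfl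
    rw [← h1, hb2, zsmul_eq_mul]
    simp
  refine ⟨C (b2 : ℤ) * IsLocalization.integerNormalization (nonZeroDivisors ℤ) u,
    C (b1 : ℤ) * IsLocalization.integerNormalization (nonZeroDivisors ℤ) v, b1 * b2,
    mul_ne_zero n1 n2, ?_⟩
  apply Polynomial.map_injective (Int.castRingHom ℚ) Int.cast_injective
  rw [Polynomial.map_add, Polynomial.map_mul, Polynomial.map_mul, Polynomial.map_mul,
    Polynomial.map_mul, e1, e2, Polynomial.map_C, Polynomial.map_C, Polynomial.map_C]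
  have h3 : C ((Int.castRingHom ℚ) (b2 : ℤ)) * (C ((b1 : ℤ) : ℚ) * u) *
      a.map (Int.castRingHom ℚ) + C ((Int.castRingHom ℚ) (b1 : ℤ)) * (C ((b2 : ℤ) : ℚ) * v) *
      b.map (Int.castRingHom ℚ) = C ((b1 : ℤ) : ℚ) * C ((b2 : ℤ) : ℚ) *
      (u * a.map (Int.castRingHom ℚ) + v * b.map (Int.castRingHom ℚ)) := by
    simp only [eq_intCast]
    ring
  rw [h3, huv, mul_one, ← C_mul]
  simp

private theorem not_dvd_of_bezout {a b : ℤ[X]} {u v : ℤ[X]} {R : ℤ} (hR : R ≠ 0)
    (h : u * a + v * b = C R) (p : ℕ) (hp : R.natAbs < p) (x : ℤ) (h1 : (p : ℤ) ∣ a.eval x) :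
    ¬ (p : ℤ) ∣ b.eval x := by
  intro h2
  have h3 : (p : ℤ) ∣ R := by
    have h4 : (u * a + v * b).eval x = R := by rw [h, eval_C]
    rw [← h4, eval_add, eval_mul, eval_mul]
    exact dvd_add (h1.mul_left _) (h2.mul_left _)
  have h5 := Int.natAbs_dvd_natAbs.2 h3
  rw [Int.natAbs_natCast] at h5
  have h6 := Nat.le_of_dvd (Int.natAbs_pos.2 hR) h5
  omega

theorem simple_root (h : ℤ[X]) (hi : Irreducible h) (hd : 1 ≤ h.natDegree) :
    ∃ B : ℕ, ∀ p : ℕ, p.Prime → B < p → ∀ a : ℤ, (p : ℤ) ∣ h.eval a →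
      ¬ (p : ℤ) ∣ (derivative h).eval a := by
  have hp : h.IsPrimitive := hi.isPrimitive (by omega)
  have h1 : Irreducible (h.map (Int.castRingHom ℚ)) :=
    (IsPrimitive.Int.irreducible_iff_irreducible_map_cast hp).1 hi
  have h2 : IsCoprime (h.map (Int.castRingHom ℚ)) ((derivative h).map (Int.castRingHom ℚ)) := by
    rw [← derivative_map]
    exact h1.separable
  obtain ⟨u, v, R, hR, hb⟩ := bezout_int h (derivative h) h2
  exact ⟨R.natAbs, fun p _ hB a ha => not_dvd_of_bezout hR hb p hB a ha⟩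

theorem coprime_part (h k : ℤ[X]) (hi : Irreducible h) (hd : 1 ≤ h.natDegree) (hk : ¬ h ∣ k) :
    ∃ B : ℕ, ∀ p : ℕ, p.Prime → B < p → ∀ a : ℤ, (p : ℤ) ∣ h.eval a → ¬ (p : ℤ) ∣ k.eval a := by
  have hp : h.IsPrimitive := hi.isPrimitive (by omega)
  have h1 : Irreducible (h.map (Int.castRingHom ℚ)) :=
    (IsPrimitive.Int.irreducible_iff_irreducible_map_cast hp).1 hi
  have h2 : IsCoprime (h.map (Int.castRingHom ℚ)) (k.map (Int.castRingHom ℚ)) := by
    rw [h1.coprime_iff_not_dvd, ← IsPrimitive.Int.dvd_iff_map_cast_dvd_map_cast h k hp]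
    exact hk
  obtain ⟨u, v, R, hR, hb⟩ := bezout_int h k h2
  exact ⟨R.natAbs, fun p _ hB a ha => not_dvd_of_bezout hR hb p hB a ha⟩

private theorem exists_irr' (g : ℤ[X]) (hd : 1 ≤ g.natDegree) :
    ∃ h : ℤ[X], Irreducible h ∧ 1 ≤ h.natDegree ∧ h ∣ g := by
  have hpd : 1 ≤ g.primPart.natDegree := by rw [natDegree_primPart]; exact hd
  have hu : ¬ IsUnit g.primPart := fun h => by
    have := natDegree_eq_zero_of_isUnit h
    omega
  have h0 : g.primPart ≠ 0 := fun h => by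
    rw [h, natDegree_zero] at hpd
    omega
  obtain ⟨i, hi, hig⟩ := WfDvdMonoid.exists_irreducible_factor hu h0
  refine ⟨i, hi, ?_, hig.trans ⟨C g.content, by
    rw [mul_comm]
    exact g.eq_C_content_mul_primPart⟩⟩
  by_contra hn
  have h1 : i.natDegree = 0 := by omega
  have h2 := eq_C_of_natDegree_eq_zero h1
  have h3 : IsUnit (i.coeff 0) := g.isPrimitive_primPart _ (by rw [← h2]; exact hig)
  exact hi.not_isUnit (by rw [h2]; exact isUnit_C.2 h3)

private theorem fac_aux (n : ℕ) : ∀ f : ℤ[X], f ≠ 0 → f.natDegree = n →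
    (∃ (h k : ℤ[X]) (e : ℕ), Irreducible h ∧ 1 ≤ h.natDegree ∧ Odd e ∧ f = h ^ e * k ∧ ¬ h ∣ k) ∨
      ∃ (c : ℤ) (g : ℤ[X]), f = C c * g ^ 2 := by
  induction n using Nat.strong_induction_on with
  | _ n ih =>
    intro f hf hn
    rcases Nat.eq_zero_or_pos n with h0 | hpos
    · right
      refine ⟨f.coeff 0, 1, ?_⟩
      rw [one_pow, mul_one]
      exact eq_C_of_natDegree_eq_zero (hn.trans h0)
    · obtain ⟨h, hi, hd, hdvd⟩ := exists_irr' f (by omega)
      obtain ⟨e, k, hk, hfk⟩ := WfDvdMonoid.max_power_factor hf hi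
      rcases Nat.even_or_odd e with he | he
      · obtain ⟨e', he'⟩ := he
        have he0 : e ≠ 0 := by
          rintro rfl
          rw [pow_zero, one_mul] at hfk
          exact hk (hfk ▸ hdvd)
        have hk0 : k ≠ 0 := fun h1 => hk (h1 ▸ dvd_zero h)
        have hdeg : f.natDegree = e * h.natDegree + k.natDegree := by
          rw [hfk, natDegree_mul (pow_ne_zero _ hi.ne_zero) hk0, natDegree_pow]
        have hlt : k.natDegree < n := by
          have : 1 ≤ e * h.natDegree := Nat.one_le_iff_ne_zero.2 (mul_ne_zero he0 (by omega))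
          omega
        rcases ih _ hlt k hk0 rfl with ⟨h1, k1, e1, hi1, hd1, ho1, hk1, hn1⟩ | ⟨c, g, hg⟩
        · left
          refine ⟨h1, h ^ e * k1, e1, hi1, hd1, ho1, ?_, ?_⟩
          · rw [hfk, hk1]
            ring
          · intro h2
            rcases hi1.prime.dvd_or_dvd h2 with h3 | h3
            · have h4 : h1 ∣ h := hi1.prime.dvd_of_dvd_pow h3
              have h5 : h ∣ h1 := (hi1.associated_of_dvd hi h4).symm.dvd
              apply hk
              rw [hk1]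
              exact (h5.trans (dvd_pow_self h1 ho1.pos.ne')).mul_right _
            · exact hn1 h3
        · right
          refine ⟨c, h ^ e' * g, ?_⟩
          rw [hfk, hg, he']
          ring
      · exact Or.inl ⟨h, k, e, hi, hd, he, hfk, hk⟩

theorem odd_or_square (f : ℤ[X]) (hf : f ≠ 0) :
    (∃ (h k : ℤ[X]) (e : ℕ), Irreducible h ∧ 1 ≤ h.natDegree ∧ Odd e ∧ f = h ^ e * k ∧ ¬ h ∣ k) ∨
      ∃ (c : ℤ) (g : ℤ[X]), f = C c * g ^ 2 := fac_aux f.natDegree f hf rfl

theorem exists_irr (g : ℤ[X]) (hd : 1 ≤ g.natDegree) :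
    ∃ h : ℤ[X], Irreducible h ∧ 1 ≤ h.natDegree ∧ h ∣ g := exists_irr' g hd

end Pool.Agent.H37.PV
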