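import Mathlib

/-!
PV Sieve: the counting lemmas of `Pool/Agent/H12/ST/Dens.lean` (helper12; private there), and the numbers of residue
classes modulo `q ^ 2` attached to a polynomial.
-/

set_option autoImplicit false

namespace Pool.Agent.H37.PV

open Filter Topology

open Finset

/-! ### counting -/

theorem Dens_crt {a b : ℕ} (hab : a.Coprime b) (A B : ℕ → Prop) [DecidablePred A] [DecidablePred B]
    (hA : ∀ n, A (n % a) ↔ A n) (hB : ∀ n, B (n % b) ↔ B n) :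
    ((range (a * b)).filter fun n => A n ∧ B n).card ≤
      ((range a).filter A).card * ((range b).filter B).card := by
  rcases Nat.eq_zero_or_pos a with rfl | ha
  · simp
  rcases Nat.eq_zero_or_pos b with rfl | hb
  · simp
  rw [← card_product]
  refine card_le_card_of_injOn (fun n => (n % a, n % b)) ?_ ?_
  · intro n hn
    simp only [coe_filter, mem_range, Set.mem_ofPred_eq] at hn
    simp only [coe_product, coe_filter, Set.mem_prod, mem_range, Set.mem_ofPred_eq]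
    exact ⟨⟨Nat.mod_lt _ ha, (hA n).2 hn.2.1⟩, Nat.mod_lt _ hb, (hB n).2 hn.2.2⟩
  · intro n hn n' hn' h
    simp only [coe_filter, mem_range, Set.mem_ofPred_eq] at hn hn'
    have h1 : n % a = n' % a := congrArg Prod.fst h
    have h2 : n % b = n' % b := congrArg Prod.snd h
    have h3 : n ≡ n' [MOD a * b] := (Nat.modEq_and_modEq_iff_modEq_mul hab).1 ⟨h1, h2⟩
    exact Nat.ModEq.eq_of_lt_of_lt h3 hn.1 hn'.1

theorem Dens_prod (Q : Finset ℕ) (hQ : ∀ q ∈ Q, q.Prime) (P : ℕ → ℕ → Prop) [∀ q, DecidablePred (P q)]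
    (hP : ∀ q n, P q (n % q ^ 2) ↔ P q n) :
    ((range (∏ q ∈ Q, q ^ 2)).filter fun n => ∀ q ∈ Q, P q n).card ≤
      ∏ q ∈ Q, ((range (q ^ 2)).filter (P q)).card := by
  induction Q using Finset.induction_on with
  | empty => simp
  | insert q Q hq ih =>
    rw [prod_insert hq, prod_insert hq]
    have h1 : ∀ n, (∀ q' ∈ Q, P q' (n % ∏ q ∈ Q, q ^ 2)) ↔ ∀ q' ∈ Q, P q' n := by
      intro n
      refine forall₂_congr fun q' hq' => ?_
      rw [← hP q' (n % _), Nat.mod_mod_of_dvd _ (dvd_prod_of_mem (fun q => q ^ 2) hq'), hP]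
    have hco : (q ^ 2).Coprime (∏ q ∈ Q, q ^ 2) := by
      refine Nat.Coprime.prod_right fun q' hq' => ?_
      refine Nat.Coprime.pow _ _ ?_
      rw [Nat.coprime_primes (hQ q (mem_insert_self _ _)) (hQ q' (mem_insert_of_mem hq'))]
      rintro rfl
      exact hq hq'
    have h2 := Dens_crt hco (P q) (fun n => ∀ q' ∈ Q, P q' n) (hP q) h1
    have h3 : ((range (q ^ 2 * ∏ q ∈ Q, q ^ 2)).filter fun n => ∀ q' ∈ insert q Q, P q' n) =
        (range (q ^ 2 * ∏ q ∈ Q, q ^ 2)).filter fun n => P q n ∧ ∀ q' ∈ Q, P q' n := by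
      refine filter_congr fun n _ => ?_
      simp only [mem_insert, forall_eq_or_imp]
    rw [h3]
    exact h2.trans (Nat.mul_le_mul_left _ (ih fun q' hq' => hQ q' (mem_insert_of_mem hq')))

theorem Dens_count {M : ℕ} (hM : 0 < M) (G : ℕ → Prop) [DecidablePred G] (hG : ∀ n, G (n % M) ↔ G n) (x : ℕ) :
    ((range (x + 1)).filter G).card ≤ (x / M + 1) * ((range M).filter G).card := by
  rw [← card_range (x / M + 1), ← card_product]
  refine card_le_card_of_injOn (fun n => (n / M, n % M)) ?_ ?_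
  · intro n hn
    simp only [coe_filter, mem_range, Set.mem_ofPred_eq] at hn
    simp only [coe_product, coe_filter, coe_range, Set.mem_prod, Set.mem_Iio, mem_range, Set.mem_ofPred_eq]
    refine ⟨?_, Nat.mod_lt _ hM, (hG n).2 hn.2⟩
    have : n / M ≤ x / M := Nat.div_le_div_right (by omega)
    omega
  · intro n _ n' _ h
    have h1 : n / M = n' / M := congrArg Prod.fst h
    have h2 : n % M = n' % M := congrArg Prod.snd h
    rw [← Nat.div_add_mod n M, ← Nat.div_add_mod n' M, h1, h2]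

/-- the sieve -/
theorem Dens_sieve (S : ℕ → Prop) [DecidablePred S] (hS : ∀ q, S q → q.Prime)
    (hdiv : ¬ Summable (fun q : ℕ => if S q then (1 : ℝ) / q else 0)) (P : ℕ → ℕ → Prop) [∀ q, DecidablePred (P q)]
    (hP : ∀ q n, P q (n % q ^ 2) ↔ P q n)
    (hc : ∀ q, S q → q ≤ 2 * ((range (q ^ 2)).filter fun n => ¬ P q n).card) (ε : ℝ) (hε : 0 < ε) :
    ∃ N : ℕ, ∀ᶠ x : ℕ in atTop,
      (((range (x + 1)).filter fun n => ∀ q < N, S q → P q n).card : ℝ) ≤ ε * x := by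
  have hnn : ∀ q : ℕ, 0 ≤ (if S q then (1 : ℝ) / q else 0) := fun q => by split_ifs <;> positivity
  have ht := (not_summable_iff_tendsto_nat_atTop_of_nonneg hnn).1 hdiv
  obtain ⟨N, hN⟩ := (ht.eventually_ge_atTop (2 * Real.log (2 / ε))).exists
  refine ⟨N, ?_⟩
  set Q := (range N).filter S with hQdef
  have hQ : ∀ q ∈ Q, q.Prime := fun q hq => hS q (mem_filter.1 hq).2
  set M := ∏ q ∈ Q, q ^ 2 with hMdef
  have hM : 0 < M := prod_pos fun q hq => pow_pos (hQ q hq).pos 2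
  have hg : ∀ q ∈ Q, (((range (q ^ 2)).filter (P q)).card : ℝ) ≤ (q : ℝ) ^ 2 * Real.exp (-(1 / (2 * (q : ℝ)))) := by
    intro q hq
    have hq0 : (0 : ℝ) < q := by exact_mod_cast (hQ q hq).pos
    have h1 := card_filter_add_card_filter_not (s := range (q ^ 2)) (P q)
    rw [card_range] at h1
    have h2 := hc q (mem_filter.1 hq).2
    have h3 : (((range (q ^ 2)).filter (P q)).card : ℝ) + (((range (q ^ 2)).filter fun n => ¬ P q n).card : ℝ) = (q : ℝ) ^ 2 := by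
      exact_mod_cast h1
    have h4 : (q : ℝ) ≤ 2 * (((range (q ^ 2)).filter fun n => ¬ P q n).card : ℝ) := by exact_mod_cast h2
    have h5 : 1 - 1 / (2 * (q : ℝ)) ≤ Real.exp (-(1 / (2 * (q : ℝ)))) := by
      have := Real.add_one_le_exp (-(1 / (2 * (q : ℝ))))
      linarith
    calc (((range (q ^ 2)).filter (P q)).card : ℝ) ≤ (q : ℝ) ^ 2 - q / 2 := by linarith
      _ = (q : ℝ) ^ 2 * (1 - 1 / (2 * (q : ℝ))) := by
        field_simp
      _ ≤ _ := mul_le_mul_of_nonneg_left h5 (by positivity)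
  have hsum : Real.log (2 / ε) ≤ ∑ q ∈ Q, 1 / (2 * (q : ℝ)) := by
    have h1 : ∑ i ∈ range N, (if S i then (1 : ℝ) / i else 0) = ∑ q ∈ Q, (1 : ℝ) / q := by
      rw [hQdef, sum_filter]
    rw [h1] at hN
    have h2 : ∑ q ∈ Q, 1 / (2 * (q : ℝ)) = (∑ q ∈ Q, (1 : ℝ) / q) / 2 := by
      rw [sum_div]
      refine sum_congr rfl fun q _ => ?_
      rw [div_div, mul_comm]
    rw [h2]
    linarith
  have hprod : ((∏ q ∈ Q, ((range (q ^ 2)).filter (P q)).card : ℕ) : ℝ) ≤ M * (ε / 2) := by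
    push_cast
    calc ∏ q ∈ Q, (((range (q ^ 2)).filter (P q)).card : ℝ) ≤ ∏ q ∈ Q, ((q : ℝ) ^ 2 * Real.exp (-(1 / (2 * (q : ℝ))))) :=
          prod_le_prod (fun q _ => Nat.cast_nonneg _) hg
      _ = M * Real.exp (-∑ q ∈ Q, 1 / (2 * (q : ℝ))) := by
        rw [prod_mul_distrib, ← Real.exp_sum, sum_neg_distrib, hMdef]
        push_cast
        rfl
      _ ≤ M * (ε / 2) := by
        refine mul_le_mul_of_nonneg_left ?_ (Nat.cast_nonneg _)
        calc Real.exp (-∑ q ∈ Q, 1 / (2 * (q : ℝ))) ≤ Real.exp (-Real.log (2 / ε)) := Real.exp_le_exp.2 (by linarith)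
          _ = ε / 2 := by
            rw [Real.exp_neg, Real.exp_log (by positivity), inv_div]
  filter_upwards [eventually_ge_atTop M] with x hx
  have hper : ∀ n, (∀ q ∈ Q, P q (n % M)) ↔ ∀ q ∈ Q, P q n := by
    intro n
    refine forall₂_congr fun q' hq' => ?_
    rw [← hP q' (n % _), Nat.mod_mod_of_dvd _ (dvd_prod_of_mem (fun q => q ^ 2) hq'), hP]
  have h1 := Dens_count hM (fun n => ∀ q ∈ Q, P q n) hper x
  have h2 := Dens_prod Q hQ P hP
  have h3 : ((range (x + 1)).filter fun n => ∀ q < N, S q → P q n) =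
      (range (x + 1)).filter fun n => ∀ q ∈ Q, P q n := by
    refine filter_congr fun n _ => ?_
    simp only [hQdef, mem_filter, mem_range, and_imp]
  rw [h3]
  have h4 : (((range (x + 1)).filter fun n => ∀ q ∈ Q, P q n).card : ℝ) ≤
      ((x / M : ℕ) + 1 : ℝ) * ((∏ q ∈ Q, ((range (q ^ 2)).filter (P q)).card : ℕ) : ℝ) := by
    exact_mod_cast h1.trans (Nat.mul_le_mul_left _ h2)
  have hM' : (0 : ℝ) < M := by exact_mod_cast hM
  have hx' : (M : ℝ) ≤ x := by exact_mod_cast hx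
  have h5 : ((x / M : ℕ) : ℝ) ≤ (x : ℝ) / M := Nat.cast_div_le
  calc (((range (x + 1)).filter fun n => ∀ q ∈ Q, P q n).card : ℝ) ≤
      ((x / M : ℕ) + 1 : ℝ) * ((∏ q ∈ Q, ((range (q ^ 2)).filter (P q)).card : ℕ) : ℝ) := h4
    _ ≤ ((x : ℝ) / M + 1) * (M * (ε / 2)) := by
      refine mul_le_mul (by linarith) hprod (Nat.cast_nonneg _) (by positivity)
    _ = (x + M) * (ε / 2) := by
      field_simp
    _ ≤ (x + x) * (ε / 2) := by
      refine mul_le_mul_of_nonneg_right (by linarith) (by positivity)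
    _ = ε * x := by ring

/-! ### classes of a polynomial -/

open Polynomial

theorem eval_mod_sq (g : ℤ[X]) (q n : ℕ) : ((q : ℤ) ^ 2) ∣ g.eval ((n % q ^ 2 : ℕ) : ℤ) - g.eval (n : ℤ) := by
  have h1 : ((n % q ^ 2 : ℕ) : ℤ) - (n : ℤ) ∣ g.eval ((n % q ^ 2 : ℕ) : ℤ) - g.eval (n : ℤ) := g.sub_dvd_eval_sub _ _
  refine dvd_trans ?_ h1
  have h2 : ((q ^ 2 : ℕ) : ℤ) ∣ (n : ℤ) - ((n % q ^ 2 : ℕ) : ℤ) := by
    push_cast
    exact Int.dvd_self_sub_emod
  have h3 := (dvd_neg (a := ((q ^ 2 : ℕ) : ℤ)) (b := (n : ℤ) - ((n % q ^ 2 : ℕ) : ℤ))).2 h2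
  rw [neg_sub] at h3
  exact_mod_cast h3

theorem per_dvd (g : ℤ[X]) (q n : ℕ) :
    ¬ (q : ℤ) ∣ g.eval ((n % q ^ 2 : ℕ) : ℤ) ↔ ¬ (q : ℤ) ∣ g.eval (n : ℤ) := by
  have h := (dvd_pow_self (q : ℤ) two_ne_zero).trans (eval_mod_sq g q n)
  exact not_congr (dvd_iff_dvd_of_dvd_sub h)

theorem per_exact (g : ℤ[X]) (q n : ℕ) :
    ¬ ((q : ℤ) ∣ g.eval ((n % q ^ 2 : ℕ) : ℤ) ∧ ¬ (q : ℤ) ^ 2 ∣ g.eval ((n % q ^ 2 : ℕ) : ℤ)) ↔
      ¬ ((q : ℤ) ∣ g.eval (n : ℤ) ∧ ¬ (q : ℤ) ^ 2 ∣ g.eval (n : ℤ)) := by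
  have h := eval_mod_sq g q n
  have h' := (dvd_pow_self (q : ℤ) two_ne_zero).trans h
  rw [dvd_iff_dvd_of_dvd_sub h, dvd_iff_dvd_of_dvd_sub h']

theorem class_lt {q r t : ℕ} (hr : r < q) (ht : t < q) : r + q * t < q ^ 2 := by
  have h1 : q * t ≤ q * (q - 1) := Nat.mul_le_mul_left _ (by omega)
  have h2 : q * (q - 1) + q = q ^ 2 := by
    obtain ⟨m, rfl⟩ : ∃ m, q = m + 1 := ⟨q - 1, by omega⟩
    rw [Nat.add_sub_cancel]
    ring
  omega

theorem class_inj {q r t t' : ℕ} (hq : 0 < q) (h : r + q * t = r + q * t') : t = t' :=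
  Nat.eq_of_mul_eq_mul_left hq (Nat.add_left_cancel h)

theorem root_rep (g : ℤ[X]) {q : ℕ} (hq : 0 < q) {a : ℤ} (ha : (q : ℤ) ∣ g.eval a) :
    ∃ r : ℕ, r < q ∧ (q : ℤ) ∣ (r : ℤ) - a := by
  have hq' : (0 : ℤ) < q := by exact_mod_cast hq
  refine ⟨(a % q).toNat, ?_, ?_⟩
  · have h1 := Int.emod_lt_of_pos a hq'
    have h2 := Int.emod_nonneg a hq'.ne'
    omega
  · have h2 := Int.emod_nonneg a hq'.ne'
    rw [Int.toNat_of_nonneg h2]
    have h3 : (q : ℤ) ∣ a - a % q := Int.dvd_self_sub_emod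
    have h4 := (dvd_neg (a := (q : ℤ)) (b := a - a % q)).2 h3
    rwa [neg_sub] at h4

theorem card_dvd (g : ℤ[X]) {q : ℕ} (hq : 0 < q) {a : ℤ} (ha : (q : ℤ) ∣ g.eval a) :
    q ≤ 2 * ((range (q ^ 2)).filter fun n : ℕ => ¬ ¬ (q : ℤ) ∣ g.eval (n : ℤ)).card := by
  obtain ⟨r, hr, hra⟩ := root_rep g hq ha
  have hinj : (range q).card ≤ ((range (q ^ 2)).filter fun n : ℕ => ¬ ¬ (q : ℤ) ∣ g.eval (n : ℤ)).card := by
    refine card_le_card_of_injOn (fun t => r + q * t) ?_ ?_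
    · intro t ht
      rw [coe_range, Set.mem_Iio] at ht
      simp only [coe_filter, mem_range, Set.mem_ofPred_eq, not_not]
      refine ⟨class_lt hr ht, ?_⟩
      have h1 : (((r + q * t : ℕ) : ℤ)) - a ∣ g.eval (((r + q * t : ℕ) : ℤ)) - g.eval a := g.sub_dvd_eval_sub _ _
      have h2 : (q : ℤ) ∣ ((r + q * t : ℕ) : ℤ) - a := by
        push_cast
        have h3 : (r : ℤ) + q * t - a = (r - a) + q * t := by ring
        rw [h3]
        exact hra.add (dvd_mul_right _ _)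
      exact (dvd_iff_dvd_of_dvd_sub (h2.trans h1)).2 ha
    · intro t _ t' _ h
      exact class_inj hq h
  rw [card_range] at hinj
  omega

theorem card_exact (g : ℤ[X]) {p : ℕ} (hp : p.Prime) {a : ℤ} (ha : (p : ℤ) ∣ g.eval a)
    (hs : ∀ b : ℤ, (p : ℤ) ∣ g.eval b → ¬ (p : ℤ) ∣ (derivative g).eval b) :
    p ≤ 2 * ((range (p ^ 2)).filter fun n : ℕ => ¬ ¬ ((p : ℤ) ∣ g.eval (n : ℤ) ∧ ¬ (p : ℤ) ^ 2 ∣ g.eval (n : ℤ))).card := by
  classical
  obtain ⟨r, hr, hra⟩ := root_rep g hp.pos ha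
  have hr0 : (p : ℤ) ∣ g.eval (r : ℤ) := (dvd_iff_dvd_of_dvd_sub (hra.trans (g.sub_dvd_eval_sub _ _))).2 ha
  have hr1 := hs r hr0
  have hpi : Prime (p : ℤ) := Nat.prime_iff_prime_int.1 hp
  have hexp : ∀ t : ℕ, (p : ℤ) ^ 2 ∣ g.eval ((r + p * t : ℕ) : ℤ) - (g.eval (r : ℤ) + (derivative g).eval (r : ℤ) * (p * t)) := by
    intro t
    obtain ⟨k, hk⟩ := g.binomExpansion (r : ℤ) ((p : ℤ) * t)
    push_cast
    rw [hk]
    exact ⟨k * t ^ 2, by ring⟩
  have hbad : ((range p).filter fun t => (p : ℤ) ^ 2 ∣ g.eval ((r + p * t : ℕ) : ℤ)).card ≤ 1 := by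
    rw [card_le_one]
    intro t ht t' ht'
    rw [mem_filter, mem_range] at ht ht'
    have h1 := (dvd_iff_dvd_of_dvd_sub (hexp t)).1 ht.2
    have h2 := (dvd_iff_dvd_of_dvd_sub (hexp t')).1 ht'.2
    have h3 := h1.sub h2
    have h4 : g.eval (r : ℤ) + (derivative g).eval (r : ℤ) * (p * t) -
        (g.eval (r : ℤ) + (derivative g).eval (r : ℤ) * (p * t')) = p * ((derivative g).eval (r : ℤ) * (t - t')) := by ring
    rw [h4, sq] at h3
    have h5 := Int.dvd_of_mul_dvd_mul_left hpi.ne_zero h3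
    rcases hpi.dvd_or_dvd h5 with h6 | h6
    · exact absurd h6 hr1
    · have h7 : (t : ℤ) ≡ t' [ZMOD p] := by
        exact (Int.modEq_iff_dvd.2 h6).symm
      have h8 : t ≡ t' [MOD p] := (Int.natCast_modEq_iff).1 h7
      exact Nat.ModEq.eq_of_lt_of_lt h8 ht.1 ht'.1
  have hgood : p ≤ ((range p).filter fun t => ¬ (p : ℤ) ^ 2 ∣ g.eval ((r + p * t : ℕ) : ℤ)).card + 1 := by
    have h1 := card_filter_add_card_filter_not (s := range p) (fun t => (p : ℤ) ^ 2 ∣ g.eval ((r + p * t : ℕ) : ℤ))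
    rw [card_range] at h1
    omega
  have hinj : ((range p).filter fun t => ¬ (p : ℤ) ^ 2 ∣ g.eval ((r + p * t : ℕ) : ℤ)).card ≤
      ((range (p ^ 2)).filter fun n : ℕ => ¬ ¬ ((p : ℤ) ∣ g.eval (n : ℤ) ∧ ¬ (p : ℤ) ^ 2 ∣ g.eval (n : ℤ))).card := by
    refine card_le_card_of_injOn (fun t => r + p * t) ?_ ?_
    · intro t ht
      rw [coe_filter, Set.mem_ofPred_eq, mem_range] at ht
      simp only [coe_filter, mem_range, Set.mem_ofPred_eq, not_not]
      refine ⟨class_lt hr ht.1, ?_, ht.2⟩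
      have h2 : (p : ℤ) ∣ ((r + p * t : ℕ) : ℤ) - (r : ℤ) := by
        push_cast
        exact ⟨t, by ring⟩
      exact (dvd_iff_dvd_of_dvd_sub (h2.trans (g.sub_dvd_eval_sub _ _))).2 hr0
    · intro t _ t' _ h
      exact class_inj hp.pos h
  have := hp.two_le
  omega

end Pool.Agent.H37.PV
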