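import Pool.Agent.H37.PV.Pow
import Pool.Agent.H37.PV.Sieve
import Pool.Agent.H37.PV.FinSq
import Pool.Agent.H37.PV.Div
import Pool.Agent.H37.PV.Root
import Pool.Agent.H37.PV.Fac

/-!
PV Key: the sieve argument.  If for all large primes `p`, `p ∣ h(m)`, `p² ∤ h(m)` implies that `p` divides `f(m)` and `f(m)` is not a
square, then almost no `f(m)` is bad.
-/

set_option autoImplicit false

namespace Pool.Agent.H37.PV

open Filter Finset Polynomial Pool.Agent.H37.PPC Pool.Agent.H24.FD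

/-- the `m` for which `f(m) ≥ 2` is bad -/
def SB (f : ℤ[X]) : Set ℕ := {m | ∃ n : ℕ, (n : ℤ) = f.eval (m : ℤ) ∧ 2 ≤ n ∧ Bad n}

open Classical in
/-- the number of `m ≤ x` with `A` -/
noncomputable def cnt (A : ℕ → Prop) (x : ℕ) : ℝ := (((range (x + 1)).filter A).card : ℝ)

theorem cnt_mono {A B : ℕ → Prop} (x : ℕ) (h : ∀ m, m ≤ x → A m → B m) : cnt A x ≤ cnt B x := by
  classical
  unfold cnt
  have h1 : ((range (x + 1)).filter A).card ≤ ((range (x + 1)).filter B).card := by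
    apply card_le_card
    intro m hm
    rw [mem_filter, mem_range] at hm ⊢
    exact ⟨hm.1, h m (by omega) hm.2⟩
  exact_mod_cast h1

theorem cnt_or (A B : ℕ → Prop) (x : ℕ) : cnt (fun m => A m ∨ B m) x ≤ cnt A x + cnt B x := by
  classical
  have h1 : ((range (x + 1)).filter fun m => A m ∨ B m).card ≤
      ((range (x + 1)).filter A).card + ((range (x + 1)).filter B).card := by
    refine (card_le_card ?_).trans (card_union_le _ _)
    intro m hm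
    rw [mem_filter] at hm
    rw [mem_union, mem_filter, mem_filter]
    rcases hm.2 with h | h
    · exact Or.inl ⟨hm.1, h⟩
    · exact Or.inr ⟨hm.1, h⟩
  have h2 : (((range (x + 1)).filter fun m => A m ∨ B m).card : ℝ) ≤
      ((range (x + 1)).filter A).card + ((range (x + 1)).filter B).card := by exact_mod_cast h1
  unfold cnt
  convert h2

theorem cnt_ex (T : Finset ℕ) (A : ℕ → ℕ → Prop) (x : ℕ) :
    cnt (fun m => ∃ p ∈ T, A p m) x ≤ ∑ p ∈ T, cnt (A p) x := by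
  classical
  have h1 : ((range (x + 1)).filter fun m => ∃ p ∈ T, A p m).card ≤
      ∑ p ∈ T, ((range (x + 1)).filter (A p)).card := by
    refine (card_le_card ?_).trans card_biUnion_le
    intro m hm
    rw [mem_filter] at hm
    obtain ⟨hx, p, hp, hA⟩ := hm
    rw [mem_biUnion]
    exact ⟨p, hp, mem_filter.2 ⟨hx, hA⟩⟩
  have h2 : (((range (x + 1)).filter fun m => ∃ p ∈ T, A p m).card : ℝ) ≤
      ∑ p ∈ T, (((range (x + 1)).filter (A p)).card : ℝ) := by exact_mod_cast h1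
  unfold cnt
  convert h2

/-- density zero -/
def Z (S : Set ℕ) : Prop := ∀ ε : ℝ, 0 < ε → ∀ᶠ x : ℕ in atTop, cnt (fun m => m ∈ S) x ≤ ε * x

theorem Z.mono {S T : Set ℕ} (h : Z T) (hST : S ⊆ T) : Z S := by
  intro ε hε
  filter_upwards [h ε hε] with x hx
  exact (cnt_mono x fun m _ hm => hST hm).trans hx

theorem Z.union {S T : Set ℕ} (h : Z S) (h' : Z T) : Z (S ∪ T) := by
  intro ε hε
  filter_upwards [h (ε / 2) (by positivity), h' (ε / 2) (by positivity)] with x hx hx'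
  have h1 := cnt_or (fun m => m ∈ S) (fun m => m ∈ T) x
  have h2 := cnt_mono (A := fun m => m ∈ S ∪ T) (B := fun m => m ∈ S ∨ m ∈ T) x fun m _ hm => hm
  linarith

theorem Z_finite {S : Set ℕ} (h : S.Finite) : Z S := by
  classical
  intro ε hε
  obtain ⟨N, hN⟩ := exists_nat_ge ((h.toFinset.card : ℝ) / ε)
  filter_upwards [eventually_ge_atTop N] with x hx
  have h1 : ((range (x + 1)).filter fun m => m ∈ S).card ≤ h.toFinset.card := by
    apply card_le_card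
    intro m hm
    rw [mem_filter] at hm
    exact (Set.Finite.mem_toFinset h).2 hm.2
  have h2 : (h.toFinset.card : ℝ) ≤ ε * N := by
    rw [div_le_iff₀ hε] at hN
    linarith
  have h3 : (N : ℝ) ≤ x := by exact_mod_cast hx
  calc cnt (fun m => m ∈ S) x ≤ h.toFinset.card := by
        unfold cnt
        exact_mod_cast h1
    _ ≤ ε * N := h2
    _ ≤ ε * x := mul_le_mul_of_nonneg_left h3 hε.le

theorem sieve_cnt (S : ℕ → Prop) [DecidablePred S] (hS : ∀ q, S q → q.Prime)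
    (hdiv : ¬ Summable (fun q : ℕ => if S q then (1 : ℝ) / q else 0)) (P : ℕ → ℕ → Prop) [∀ q, DecidablePred (P q)]
    (hP : ∀ q n, P q (n % q ^ 2) ↔ P q n)
    (hc : ∀ q, S q → q ≤ 2 * ((range (q ^ 2)).filter fun n => ¬ P q n).card) (ε : ℝ) (hε : 0 < ε) :
    ∃ N : ℕ, ∀ᶠ x : ℕ in atTop, cnt (fun n => ∀ q < N, S q → P q n) x ≤ ε * x := by
  obtain ⟨N, hN⟩ := Dens_sieve S hS hdiv P hP hc ε hε
  refine ⟨N, ?_⟩
  filter_upwards [hN] with x hx
  unfold cnt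
  convert hx

open Classical in
/-- the primes used for a given `p` -/
theorem test_primes (F : ℤ[X]) (hF : 1 ≤ F.natDegree) : ∃ B : ℕ, ∀ p : ℕ, p.Prime → B < p →
    ∃ Q : ℕ → Prop, (∀ q, Q q → q.Prime ∧ q ≠ 2 ∧ ¬ IsSquare ((p : ℕ) : ZMod q) ∧ ∃ a : ℤ, (q : ℤ) ∣ F.eval a) ∧
      ¬ Summable (fun q : ℕ => if Q q then (1 : ℝ) / q else 0) := by
  obtain ⟨K, hK1, hK2, B, hB⟩ := root_of_np F hF
  have hfin := finite_sq K
  refine ⟨hfin.toFinset.sup id, fun p hp hBp => ?_⟩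
  have hsq : ∀ x : K, x ^ 2 ≠ (p : K) := by
    intro x hx
    have h1 : p ∈ hfin.toFinset := (Set.Finite.mem_toFinset hfin).2 ⟨hp, x, hx⟩
    have h2 : p ≤ hfin.toFinset.sup id := Finset.le_sup (f := id) h1
    omega
  refine ⟨fun q => q.Prime ∧ max B 2 < q ∧ 0 < np K q ∧ ¬ IsSquare ((p : ℕ) : ZMod q), ?_, ?_⟩
  · rintro q ⟨hq, hBq, hn, hs⟩
    refine ⟨hq, ?_, hs, hB q hq (lt_of_le_of_lt (le_max_left _ _) hBq) hn⟩
    have := lt_of_le_of_lt (le_max_right _ _) hBq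
    omega
  · have h := nonres_div K p hp hsq (max B 2)
    convert h

theorem key (f h : ℤ[X]) (hf : 1 ≤ f.natDegree) (hi : Irreducible h) (hd : 1 ≤ h.natDegree) (B : ℕ)
    (H : ∀ p : ℕ, p.Prime → B < p → ∀ m n : ℕ, (n : ℤ) = f.eval (m : ℤ) → 2 ≤ n →
      (p : ℤ) ∣ h.eval (m : ℤ) → ¬ (p : ℤ) ^ 2 ∣ h.eval (m : ℤ) → p ∣ n ∧ ¬ IsSquare n) : Z (SB f) := by
  classical
  have hF : 1 ≤ (f ^ 2 + f + 1).natDegree := by
    have h1 : (f ^ 2).natDegree = 2 * f.natDegree := natDegree_pow f 2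
    have h2 : (f + 1).natDegree < (f ^ 2).natDegree := by
      refine lt_of_le_of_lt (natDegree_add_le _ _) ?_
      rw [natDegree_one, h1]
      omega
    rw [add_assoc, natDegree_add_eq_left_of_natDegree_lt h2, h1]
    omega
  obtain ⟨B1, hB1⟩ := test_primes _ hF
  obtain ⟨B2, hB2⟩ := simple_root h hi hd
  obtain ⟨K, hK1, hK2, B3, hB3⟩ := root_of_np h hd
  obtain ⟨B4, hB4⟩ : ∃ B4 : ℕ, B4 = max (max B B1) (max B2 B3) := ⟨_, rfl⟩
  have hle : B ≤ B4 ∧ B1 ≤ B4 ∧ B2 ≤ B4 ∧ B3 ≤ B4 := by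
    rw [hB4]
    refine ⟨?_, ?_, ?_, ?_⟩ <;> simp
  have hS1 := deg_one_div K B4
  intro ε hε
  obtain ⟨P, hP⟩ := sieve_cnt (fun q => q.Prime ∧ B4 < q ∧ 0 < np K q) (fun q h => h.1) hS1
    (fun q n => ¬ ((q : ℤ) ∣ h.eval (n : ℤ) ∧ ¬ (q : ℤ) ^ 2 ∣ h.eval (n : ℤ))) (fun q n => per_exact h q n)
    (fun q hq => by
      obtain ⟨a, ha⟩ := hB3 q hq.1 (by have := hq.2.1; omega) hq.2.2
      exact card_exact h hq.1 ha (fun b hb => hB2 q hq.1 (by have := hq.2.1; omega) b hb)) (ε / 2) (by positivity)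
  have hp : ∀ p : ℕ, ∃ N : ℕ, ∃ Q : ℕ → Prop, (p.Prime → B4 < p →
      (∀ q, Q q → q.Prime ∧ q ≠ 2 ∧ ¬ IsSquare ((p : ℕ) : ZMod q)) ∧
      ∀ᶠ x : ℕ in atTop, cnt (fun n => ∀ q < N, Q q →
        ¬ (q : ℤ) ∣ (f ^ 2 + f + 1).eval (n : ℤ)) x ≤ ε / (2 * (P + 1)) * x) := by
    intro p
    by_cases hpp : p.Prime ∧ B4 < p
    · obtain ⟨Q, hQ, hdiv⟩ := hB1 p hpp.1 (by have := hpp.2; omega)
      obtain ⟨N, hN⟩ := sieve_cnt Q (fun q h => (hQ q h).1) (by convert hdiv)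
        (fun q n => ¬ (q : ℤ) ∣ (f ^ 2 + f + 1).eval (n : ℤ)) (fun q n => per_dvd _ q n)
        (fun q hq => by
          obtain ⟨hq1, _, _, a, ha⟩ := hQ q hq
          exact card_dvd _ hq1.pos ha) (ε / (2 * (P + 1))) (by positivity)
      exact ⟨N, Q, fun _ _ => ⟨fun q hq => ⟨(hQ q hq).1, (hQ q hq).2.1, (hQ q hq).2.2.1⟩, hN⟩⟩
    · exact ⟨0, fun _ => False, fun h1 h2 => absurd ⟨h1, h2⟩ hpp⟩
  choose N Q hNQ using hp
  obtain ⟨T, hT⟩ : ∃ T : Finset ℕ, T = (range P).filter (fun p => p.Prime ∧ B4 < p) := ⟨_, rfl⟩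
  have hTm : ∀ p, p ∈ T ↔ p < P ∧ p.Prime ∧ B4 < p := by
    intro p
    rw [hT, mem_filter, mem_range]
  have hall : ∀ᶠ x : ℕ in atTop, ∀ p ∈ T, cnt (fun n => ∀ q < N p, Q p q →
        ¬ (q : ℤ) ∣ (f ^ 2 + f + 1).eval (n : ℤ)) x ≤ ε / (2 * (P + 1)) * x := by
    rw [Filter.eventually_all_finset]
    intro p hp
    rw [hTm] at hp
    exact (hNQ p hp.2.1 hp.2.2).2
  filter_upwards [hP, hall] with x hx1 hx2
  have hsub := cnt_mono (A := fun m => m ∈ SB f) (B := fun n => (∀ q < P, (q.Prime ∧ B4 < q ∧ 0 < np K q) →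
        ¬ ((q : ℤ) ∣ h.eval (n : ℤ) ∧ ¬ (q : ℤ) ^ 2 ∣ h.eval (n : ℤ))) ∨
        ∃ p ∈ T, ∀ q < N p, Q p q → ¬ (q : ℤ) ∣ (f ^ 2 + f + 1).eval (n : ℤ)) x (by
    rintro m - ⟨n, hn, hn2, hbad⟩
    by_contra hcon
    push Not at hcon
    obtain ⟨h1, h2⟩ := hcon
    obtain ⟨p, hpP, hp1, hp2, hp3⟩ := h1
    obtain ⟨hpp, hBp, _⟩ := hp1
    obtain ⟨q, _, hq1, hq2⟩ := h2 p ((hTm p).2 ⟨hpP, hpp, hBp⟩)
    obtain ⟨hpn, hns⟩ := H p hpp (by omega) m n hn hn2 hp2 hp3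
    obtain ⟨hqp, hq2', hqs⟩ := (hNQ p hpp hBp).1 q hq1
    have hM := mg_of_bad hn2 hns hbad
    have hqv : q ∣ n ^ 2 + n + 1 := by
      have h4 : ((n ^ 2 + n + 1 : ℕ) : ℤ) = (f ^ 2 + f + 1).eval (m : ℤ) := by
        push_cast
        rw [hn]
        simp
      rw [← h4] at hq2
      exact_mod_cast hq2
    have hfq : Fact q.Prime := ⟨hqp⟩
    have hp0 : ((p : ℕ) : ZMod q) ≠ 0 := by
      intro h0
      apply hqs
      rw [h0]
      exact ⟨0, by ring⟩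
    have h5 := hM p q hpp hpn hqp hqv (q / 2)
    rcases ZMod.pow_div_two_eq_neg_one_or_one q hp0 with h6 | h6
    · exact hqs ((ZMod.euler_criterion q hp0).2 h6)
    · exact h5 h6)
  have h2 := cnt_or (fun n => ∀ q < P, (q.Prime ∧ B4 < q ∧ 0 < np K q) →
        ¬ ((q : ℤ) ∣ h.eval (n : ℤ) ∧ ¬ (q : ℤ) ^ 2 ∣ h.eval (n : ℤ)))
        (fun n => ∃ p ∈ T, ∀ q < N p, Q p q → ¬ (q : ℤ) ∣ (f ^ 2 + f + 1).eval (n : ℤ)) x
  have h3 := cnt_ex T (fun p n => ∀ q < N p, Q p q → ¬ (q : ℤ) ∣ (f ^ 2 + f + 1).eval (n : ℤ)) x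
  have h7 := sum_le_sum hx2
  rw [sum_const, nsmul_eq_mul] at h7
  have h4 : (T.card : ℝ) ≤ P := by
    have := card_filter_le (range P) (fun p => p.Prime ∧ B4 < p)
    rw [card_range, ← hT] at this
    exact_mod_cast this
  have hx0 : (0 : ℝ) ≤ x := Nat.cast_nonneg x
  have h5 : (T.card : ℝ) * (ε / (2 * (P + 1)) * x) ≤ (P + 1) * (ε / (2 * (P + 1)) * x) :=
    mul_le_mul_of_nonneg_right (by linarith) (by positivity)
  have h6 : ((P : ℝ) + 1) * (ε / (2 * (P + 1)) * x) = ε / 2 * x := by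
    field_simp
  linarith

end Pool.Agent.H37.PV
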