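import Pool.Agent.H37.PPC.A2

/-!
Project PV (MP_e38f6a_co): orders of planar cyclic difference sets among the values of a polynomial, and among
perfect powers.  Definitions.
-/

set_option autoImplicit false

namespace Pool.Agent.H37.PV

open Pool.Agent.H37.PPC

/-- Mann's test: for primes `p ∣ n`, `q ∣ n²+n+1` no power of `p` is `-1` modulo `q` -/
def MG (n : ℕ) : Prop := ∀ p q : ℕ, p.Prime → p ∣ n → q.Prime → q ∣ n ^ 2 + n + 1 →
  ∀ k : ℕ, (p : ZMod q) ^ k ≠ -1

/-- some power `n ^ k` with `3 ∤ k` is an order -/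
def Bad (n : ℕ) : Prop := ∃ k : ℕ, ¬ 3 ∣ k ∧ IsOrder (n ^ k)

end Pool.Agent.H37.PV
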