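import Pool.Agent.H37.PV.Defs

/-!
PV Desc: if `s²` is an order then `s` is an order (Bruck).

PROOF. `n = s²`, `v = n²+n+1 = u w`, `u = s²+s+1`, `w = s²-s+1` (write `w + s = s²+1` in `ℕ`). Take `D` from `IsOrder (s^2)`.
`multiplier n D hcard hD p hp hpn` (PPC/A1) gives for every prime `p ∣ n` an `r₀` with `D.image (p * ·) = D.image (· + r₀)`.
(1) For every natural number `t ≥ 1` all of whose prime factors divide `n` there is `r` with
`D.image (t * ·) = D.image (· + r)` (induction on `t`: `t = p t'`, `p (D + r') = p D + p r' = D + r₀ + p r'`). Take `t = s³` (`s ≥ 2`).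
(2) `s³` is a unit mod `v`; as in `A2_fixed` (PPC/A2, private, copy it: it does not use that `p` is prime) some translate `D₀` of `D`
has `D₀.image (s³ * ·) = D₀`.
(3) `D₀` has the same two properties as `D`.  Let `μ = s³` and `r ≠ 0` with `μ r = r`.  The unique `(d, d') ∈ D₀ × D₀` with
`d - d' = r` satisfies `(μ d, μ d') ∈ D₀ × D₀`, `μ d - μ d' = r`, so `μ d = d`, `μ d' = d'`.
(4) `μ x = x ↔ w ∣ x`: `(s³-1) = (s-1) u`; if `x = w y` then `(s-1) u w y = 0`. Conversely `v ∣ (s-1) u x` gives `w ∣ (s-1) x`,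
`w = s (s-1) + 1` is coprime to `s - 1`, so `w ∣ x` (for the representative in `ℕ` or `ℤ`).
(5) `E = {y : ZMod u | w y ∈ D₀}` where `ψ : ZMod u →+ ZMod v`, `y ↦ w * y` (injective, `ZMod.lift` or via representatives
`(w * y.val : ZMod v)`). Every nonzero `y` is exactly once a difference of two elements of `E` ((3), (4)).
(6) Counting: `|E| (|E| - 1) = u - 1 = s (s + 1)`, so `|E| = s + 1`.
-/

set_option autoImplicit false

namespace Pool.Agent.H37.PV

open Finset Pool.Agent.H37.PPC

/-- every `t` composed of primes dividing `n` is a multiplier -/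
private theorem Desc_mult (n : ℕ) (D : Finset (ZMod (n ^ 2 + n + 1))) (hcard : D.card = n + 1)
    (hD : ∀ r : ZMod (n ^ 2 + n + 1), r ≠ 0 →
      ((D ×ˢ D).filter (fun p => p.1 - p.2 = r)).card = 1) (t : ℕ) :
    1 ≤ t → (∀ p : ℕ, p.Prime → p ∣ t → p ∣ n) →
    ∃ r : ZMod (n ^ 2 + n + 1),
      D.image (fun d => (t : ZMod (n ^ 2 + n + 1)) * d) = D.image (fun d => d + r) := by
  classical
  induction t using Nat.strong_induction_on with
  | _ t ih =>
    intro ht hp
    by_cases h1 : t = 1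
    · subst h1
      refine ⟨0, ?_⟩
      apply image_congr
      intro d _
      simp
    · have hpp : (Nat.minFac t).Prime := Nat.minFac_prime h1
      obtain ⟨t', ht'⟩ := Nat.minFac_dvd t
      have ht1 : 1 ≤ t' := by
        rcases Nat.eq_zero_or_pos t' with h | h
        · rw [h, mul_zero] at ht'
          omega
        · exact h
      have htt : t' < t := by
        have := hpp.two_le
        nlinarith
      obtain ⟨r', hr'⟩ := ih t' htt ht1 (fun p hp' hd => hp p hp' (by
        rw [ht']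
        exact hd.mul_left _))
      obtain ⟨r0, hr0⟩ := multiplier n D hcard hD (Nat.minFac t) hpp
        (hp _ hpp (Nat.minFac_dvd t))
      refine ⟨r0 + (Nat.minFac t : ZMod (n ^ 2 + n + 1)) * r', ?_⟩
      have e1 : D.image (fun d => (t : ZMod (n ^ 2 + n + 1)) * d) =
          (D.image (fun d => (t' : ZMod (n ^ 2 + n + 1)) * d)).image
            (fun d => (Nat.minFac t : ZMod (n ^ 2 + n + 1)) * d) := by
        rw [image_image]
        apply image_congr
        intro d _
        have e2 : (t : ZMod (n ^ 2 + n + 1)) =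
            (Nat.minFac t : ZMod (n ^ 2 + n + 1)) * (t' : ZMod (n ^ 2 + n + 1)) := by
          rw [← Nat.cast_mul, ← ht']
        simp only [Function.comp]
        rw [e2]
        ring
      have e3 : (D.image (fun d => d + r')).image
          (fun d => (Nat.minFac t : ZMod (n ^ 2 + n + 1)) * d) =
          (D.image (fun d => (Nat.minFac t : ZMod (n ^ 2 + n + 1)) * d)).image
            (fun d => d + (Nat.minFac t : ZMod (n ^ 2 + n + 1)) * r') := by
        rw [image_image, image_image]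
        apply image_congr
        intro d _
        simp only [Function.comp]
        ring
      rw [e1, hr', e3, hr0, image_image]
      apply image_congr
      intro d _
      simp only [Function.comp]
      ring

/-- translation to a set fixed by multiplication by `p` -/
private theorem Desc_fixed (n : ℕ) (D : Finset (ZMod (n ^ 2 + n + 1))) (hcard : D.card = n + 1)
    (p : ℕ) (r0 : ZMod (n ^ 2 + n + 1))
    (hmult : D.image (fun d => (p : ZMod (n ^ 2 + n + 1)) * d) = D.image (fun d => d + r0))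
    (hpu : IsUnit (p : ZMod (n ^ 2 + n + 1))) :
    ∃ t : ZMod (n ^ 2 + n + 1),
      (D.image (fun d => d + t)).image (fun d => (p : ZMod (n ^ 2 + n + 1)) * d)
        = D.image (fun d => d + t) := by
  classical
  have hv : ((n : ZMod (n ^ 2 + n + 1)) ^ 2 + n + 1) = 0 := by
    have := ZMod.natCast_self (n ^ 2 + n + 1)
    push_cast at this
    exact this
  set s : ZMod (n ^ 2 + n + 1) := ∑ d ∈ D, d with hs
  set t : ZMod (n ^ 2 + n + 1) := (n : ZMod (n ^ 2 + n + 1)) * s with ht
  refine ⟨t, ?_⟩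
  set D0 := D.image (fun d => d + t) with hD0
  set r1 := r0 + (p : ZMod (n ^ 2 + n + 1)) * t - t with hr1
  have h1 : D0.image (fun d => (p : ZMod (n ^ 2 + n + 1)) * d) = D0.image (fun d => d + r1) := by
    have e1 : D0.image (fun d => (p : ZMod (n ^ 2 + n + 1)) * d)
        = (D.image (fun d => (p : ZMod (n ^ 2 + n + 1)) * d)).image
          (fun d => d + (p : ZMod (n ^ 2 + n + 1)) * t) := by
      rw [hD0, image_image, image_image]
      apply image_congr
      intro d _
      simp only [Function.comp]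
      ring
    rw [e1, hmult, hD0, image_image, image_image]
    apply image_congr
    intro d _
    simp only [Function.comp, hr1]
    ring
  have hcard0 : D0.card = n + 1 := by
    rw [hD0, card_image_of_injective _ (add_left_injective t), hcard]
  have hsum0 : ∑ x ∈ D0, x = 0 := by
    rw [hD0, sum_image (fun x _ y _ h => add_left_injective t h), sum_add_distrib, sum_const,
      hcard, ← hs, nsmul_eq_mul, ht]
    push_cast
    linear_combination s * hv
  have hsum1 : ∑ x ∈ D0.image (fun d => (p : ZMod (n ^ 2 + n + 1)) * d), x = 0 := by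
    rw [sum_image (fun x _ y _ h => hpu.mul_right_injective h), ← mul_sum, hsum0, mul_zero]
  have hsum2 : ∑ x ∈ D0.image (fun d => d + r1), x = ((n : ZMod (n ^ 2 + n + 1)) + 1) * r1 := by
    rw [sum_image (fun x _ y _ h => add_left_injective r1 h), sum_add_distrib, sum_const,
      hcard0, hsum0, nsmul_eq_mul]
    push_cast
    ring
  have hr : r1 = 0 := by
    have h2 : ((n : ZMod (n ^ 2 + n + 1)) + 1) * r1 = 0 := by rw [← hsum2, ← h1, hsum1]
    linear_combination (-(n : ZMod (n ^ 2 + n + 1))) * h2 + r1 * hv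
  rw [h1, hr]
  simp

/-- the embedding `y ↦ w y` of `ZMod u` in `ZMod v`, `v = w u` -/
private def Desc_psi (u w v : ℕ) (y : ZMod u) : ZMod v := ((w * y.val : ℕ) : ZMod v)

private theorem Desc_psi_cast {u w v : ℕ} (hv : v = w * u) (k : ℕ) :
    Desc_psi u w v (k : ZMod u) = ((w * k : ℕ) : ZMod v) := by
  unfold Desc_psi
  rw [ZMod.val_natCast, ← Nat.mul_mod_mul_left, ← hv, ZMod.natCast_mod]

private theorem Desc_psi_sub {u w v : ℕ} [NeZero u] (hv : v = w * u) (a b : ZMod u) :
    Desc_psi u w v (a - b) = Desc_psi u w v a - Desc_psi u w v b := by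
  have h : ∀ x y : ZMod u, Desc_psi u w v (x + y) = Desc_psi u w v x + Desc_psi u w v y := by
    intro x y
    have h1 := Desc_psi_cast (w := w) hv (x.val + y.val)
    rw [Nat.cast_add, ZMod.natCast_zmod_val, ZMod.natCast_zmod_val] at h1
    rw [h1]
    unfold Desc_psi
    push_cast
    ring
  have h2 := h (a - b) b
  rw [sub_add_cancel] at h2
  rw [h2]
  ring

private theorem Desc_psi_inj {u w v : ℕ} [NeZero u] (hv : v = w * u) (hw : 0 < w) :
    Function.Injective (Desc_psi u w v) := by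
  intro a b hab
  unfold Desc_psi at hab
  rw [ZMod.natCast_eq_natCast_iff'] at hab
  have ha := ZMod.val_lt a
  have hb := ZMod.val_lt b
  rw [Nat.mod_eq_of_lt (by rw [hv]; exact Nat.mul_lt_mul_of_pos_left ha hw),
    Nat.mod_eq_of_lt (by rw [hv]; exact Nat.mul_lt_mul_of_pos_left hb hw)] at hab
  exact ZMod.val_injective u (Nat.eq_of_mul_eq_mul_left hw hab)

/-- fixed points of `s ^ 3` -/
private theorem Desc_range {s u w v : ℕ} (hs : 2 ≤ s) (hu : u = s ^ 2 + s + 1)
    (hw : w + s = s ^ 2 + 1) (hv : v = w * u) [NeZero v] (x : ZMod v)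
    (hx : ((s ^ 3 : ℕ) : ZMod v) * x = x) : ∃ y : ZMod u, Desc_psi u w v y = x := by
  obtain ⟨m, rfl⟩ : ∃ m, s = m + 1 := ⟨s - 1, by omega⟩
  have hupos : 0 < u := by rw [hu]; positivity
  have h1 : ((((m + 1) ^ 3 : ℕ) : ZMod v) * ((x.val : ℕ) : ZMod v)) = ((x.val : ℕ) : ZMod v) := by
    rw [ZMod.natCast_zmod_val]
    exact hx
  have h2 : (m + 1) ^ 3 = m * u + 1 := by
    rw [hu]
    ring
  have h3 : ((m * u * x.val : ℕ) : ZMod v) = 0 := by
    have h4 : ((((m * u + 1 : ℕ)) : ZMod v) * ((x.val : ℕ) : ZMod v)) = ((x.val : ℕ) : ZMod v) := by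
      rw [← h2]
      exact h1
    push_cast at h4 ⊢
    linear_combination h4
  rw [ZMod.natCast_eq_zero_iff] at h3
  have h4 : w ∣ m * x.val := by
    have h5 : w * u ∣ (m * x.val) * u := by
      have h6 : m * u * x.val = (m * x.val) * u := by ring
      rw [h6] at h3
      exact (dvd_of_eq hv.symm).trans h3
    exact Nat.dvd_of_mul_dvd_mul_right hupos h5
  have h5 : w = (m + 1) * m + 1 := by
    have h6 : (m + 1) ^ 2 = (m + 1) * m + (m + 1) := by ring
    omega
  have h6 : Nat.Coprime w m := by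
    rw [h5]
    have : (m + 1) * m + 1 = 1 + m * (m + 1) := by ring
    rw [this]
    simp
  have h7 : w ∣ x.val := h6.dvd_of_dvd_mul_left h4
  obtain ⟨k, hk⟩ := h7
  refine ⟨(k : ZMod u), ?_⟩
  rw [Desc_psi_cast hv, ← hk, ZMod.natCast_zmod_val]

private theorem Desc_fix {s u w v : ℕ} (hs : 2 ≤ s) (hu : u = s ^ 2 + s + 1)
    (hv : v = w * u) (y : ZMod u) :
    ((s ^ 3 : ℕ) : ZMod v) * Desc_psi u w v y = Desc_psi u w v y := by
  obtain ⟨m, rfl⟩ : ∃ m, s = m + 1 := ⟨s - 1, by omega⟩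
  have h2 : (m + 1) ^ 3 = m * u + 1 := by
    rw [hu]
    ring
  have h3 : ((w * u : ℕ) : ZMod v) = 0 := by
    rw [← hv, ZMod.natCast_self]
  unfold Desc_psi
  rw [h2]
  push_cast at h3 ⊢
  linear_combination ((m : ZMod v) * (y.val : ZMod v)) * h3

/-- the number of elements of a planar difference set -/
private theorem Desc_count (s : ℕ) (hs : 1 ≤ s) (E : Finset (ZMod (s ^ 2 + s + 1)))
    (hE : ∀ r : ZMod (s ^ 2 + s + 1), r ≠ 0 →
      ((E ×ˢ E).filter (fun p => p.1 - p.2 = r)).card = 1) : E.card = s + 1 := by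
  classical
  have h1 : (E ×ˢ E).card = ∑ r : ZMod (s ^ 2 + s + 1),
      ((E ×ˢ E).filter (fun p => p.1 - p.2 = r)).card :=
    card_eq_sum_card_fiberwise (f := fun q : ZMod (s ^ 2 + s + 1) × ZMod (s ^ 2 + s + 1) =>
      q.1 - q.2) (fun _ _ => mem_coe.2 (mem_univ _))
  have h0 : ((E ×ˢ E).filter (fun p => p.1 - p.2 = 0)).card = E.card := by
    refine (card_bij (fun a _ => (a, a)) ?_ ?_ ?_).symm
    · intro a ha
      simp [ha]
    · intro a _ b _ hab
      exact (Prod.mk.inj hab).1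
    · rintro ⟨a, b⟩ hab
      simp only [mem_filter, mem_product, sub_eq_zero] at hab
      exact ⟨a, hab.1.1, by rw [hab.2]⟩
  rw [← add_sum_erase univ _ (mem_univ (0 : ZMod (s ^ 2 + s + 1))), h0,
    sum_congr rfl (fun r hr => hE r (ne_of_mem_erase hr)), sum_const,
    card_erase_of_mem (mem_univ _), card_univ, ZMod.card, card_product, smul_eq_mul,
    mul_one, Nat.add_sub_cancel] at h1
  have h2 : E.card * E.card = E.card + s * (s + 1) := by
    rw [h1]
    ring
  rcases Nat.lt_trichotomy E.card (s + 1) with h | h | h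
  · exfalso
    have h3 : E.card ≤ s := by omega
    nlinarith
  · exact h
  · exfalso
    nlinarith

theorem descent {s : ℕ} (hs : 2 ≤ s) (h : IsOrder (s ^ 2)) : IsOrder s := by
  classical
  obtain ⟨D, hcard, hD⟩ := h
  obtain ⟨w, hw⟩ : ∃ w, w + s = s ^ 2 + 1 := ⟨s ^ 2 + 1 - s, by
    have : s ≤ s ^ 2 := Nat.le_self_pow (by norm_num) s
    omega⟩
  have hw0 : 0 < w := by
    have : s ≤ s ^ 2 := Nat.le_self_pow (by norm_num) s
    omega
  have hv : (s ^ 2) ^ 2 + s ^ 2 + 1 = w * (s ^ 2 + s + 1) := by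
    zify at hw ⊢
    have h1 : (w : ℤ) = s ^ 2 + 1 - s := by linarith
    rw [h1]
    ring
  have hcop : Nat.Coprime (s ^ 3) ((s ^ 2) ^ 2 + s ^ 2 + 1) := by
    apply Nat.Coprime.pow_left
    have h1 : (s ^ 2) ^ 2 + s ^ 2 + 1 = 1 + s * (s ^ 3 + s) := by ring
    rw [h1]
    simp
  have hunit : IsUnit ((s ^ 3 : ℕ) : ZMod ((s ^ 2) ^ 2 + s ^ 2 + 1)) :=
    (ZMod.isUnit_iff_coprime _ _).2 hcop
  obtain ⟨r0, hr0⟩ := Desc_mult (s ^ 2) D hcard hD (s ^ 3) (Nat.one_le_pow _ _ (by omega))
    (fun p hp hd => dvd_pow (hp.dvd_of_dvd_pow hd) (by norm_num))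
  obtain ⟨t, ht⟩ := Desc_fixed (s ^ 2) D hcard (s ^ 3) r0 hr0 hunit
  set D0 := D.image (fun d => d + t) with hD0
  have hD0' : ∀ r : ZMod ((s ^ 2) ^ 2 + s ^ 2 + 1), r ≠ 0 →
      ((D0 ×ˢ D0).filter (fun p => p.1 - p.2 = r)).card = 1 := by
    intro r hr
    refine Eq.trans (Eq.symm ?_) (hD r hr)
    apply card_bij (fun p _ => (p.1 + t, p.2 + t))
    · rintro ⟨a, b⟩ hab
      rw [mem_filter, mem_product] at hab ⊢
      refine ⟨⟨mem_image_of_mem _ hab.1.1, mem_image_of_mem _ hab.1.2⟩, ?_⟩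
      rw [← hab.2]
      ring
    · rintro ⟨a, b⟩ _ ⟨c, d⟩ _ h1
      simp only [Prod.mk.injEq, add_left_inj] at h1
      rw [h1.1, h1.2]
    · rintro ⟨a, b⟩ hab
      rw [mem_filter, mem_product, hD0, mem_image, mem_image] at hab
      obtain ⟨⟨⟨a', ha', h1⟩, ⟨b', hb', h2⟩⟩, h3⟩ := hab
      refine ⟨(a', b'), mem_filter.2 ⟨mem_product.2 ⟨ha', hb'⟩, ?_⟩, ?_⟩
      · simp only at h1 h2 h3 ⊢
        rw [← h3, ← h1, ← h2]
        ring
      · simp only at h1 h2 ⊢
        rw [h1, h2]
  set ψ := Desc_psi (s ^ 2 + s + 1) w ((s ^ 2) ^ 2 + s ^ 2 + 1) with hψ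
  have hinj : Function.Injective ψ := Desc_psi_inj hv hw0
  have hsub : ∀ a b, ψ (a - b) = ψ a - ψ b := fun a b => Desc_psi_sub hv a b
  have hz : ψ 0 = 0 := by
    have := hsub 0 0
    rwa [sub_self, sub_self] at this
  set E : Finset (ZMod (s ^ 2 + s + 1)) := univ.filter (fun y => ψ y ∈ D0) with hE
  have hdiff : ∀ r : ZMod (s ^ 2 + s + 1), r ≠ 0 →
      ((E ×ˢ E).filter (fun p => p.1 - p.2 = r)).card = 1 := by
    intro y hy
    have hy0 : ψ y ≠ 0 := fun h0 => hy (hinj (h0.trans hz.symm))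
    obtain ⟨⟨d, d'⟩, hdd⟩ := card_eq_one.1 (hD0' (ψ y) hy0)
    have hmem : (d, d') ∈ (D0 ×ˢ D0).filter (fun p => p.1 - p.2 = ψ y) := by
      rw [hdd]
      exact mem_singleton_self _
    have huniq : ∀ a b, a ∈ D0 → b ∈ D0 → a - b = ψ y → a = d ∧ b = d' := by
      intro a b ha hb hab
      have h1 : (a, b) ∈ (D0 ×ˢ D0).filter (fun p => p.1 - p.2 = ψ y) :=
        mem_filter.2 ⟨mem_product.2 ⟨ha, hb⟩, hab⟩
      rw [hdd, mem_singleton] at h1
      exact Prod.mk.inj h1
    obtain ⟨hm1, hm2⟩ := mem_filter.1 hmem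
    obtain ⟨hd, hd'⟩ := mem_product.1 hm1
    simp only at hd hd' hm2
    have hmul : ∀ a ∈ D0, ((s ^ 3 : ℕ) : ZMod ((s ^ 2) ^ 2 + s ^ 2 + 1)) * a ∈ D0 := by
      intro a ha
      rw [← ht]
      exact mem_image_of_mem _ ha
    obtain ⟨h3, h4⟩ := huniq _ _ (hmul d hd) (hmul d' hd') (by
      rw [← mul_sub, hm2]
      exact Desc_fix hs rfl hv y)
    obtain ⟨e, he⟩ := Desc_range hs rfl hw hv d h3
    obtain ⟨e', he'⟩ := Desc_range hs rfl hw hv d' h4
    rw [card_eq_one]
    refine ⟨(e, e'), ?_⟩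
    ext ⟨a, b⟩
    rw [mem_filter, mem_product, mem_singleton]
    constructor
    · rintro ⟨⟨ha, hb⟩, hab⟩
      have ha' := (mem_filter.1 ha).2
      have hb' := (mem_filter.1 hb).2
      obtain ⟨h5, h6⟩ := huniq _ _ ha' hb' (by
        rw [← hsub]
        exact congrArg ψ hab)
      have h7 : a = e := hinj (h5.trans he.symm)
      have h8 : b = e' := hinj (h6.trans he'.symm)
      rw [h7, h8]
    · intro hab
      obtain ⟨rfl, rfl⟩ := Prod.mk.inj hab
      refine ⟨⟨mem_filter.2 ⟨mem_univ _, ?_⟩, mem_filter.2 ⟨mem_univ _, ?_⟩⟩, ?_⟩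
      · show ψ a ∈ D0
        rw [hψ, he]
        exact hd
      · show ψ b ∈ D0
        rw [hψ, he']
        exact hd'
      · apply hinj
        rw [hsub, hψ, he, he']
        exact hm2
  exact ⟨E, Desc_count s (by omega) E hdiff, hdiff⟩

end Pool.Agent.H37.PV
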