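import Pool.Agent.H37.PV.Desc

/-!
PV Pow: a non-square `n ≥ 2` some power of which (exponent not divisible by 3) is an order passes Mann's test.
-/

set_option autoImplicit false

namespace Pool.Agent.H37.PV

open Finset Pool.Agent.H37.PPC

theorem mg_of_order {n : ℕ} (hn : 2 ≤ n) (hsq : ¬ IsSquare n) (h : IsOrder n) : MG n := by
  intro p q hp hpn hq hqv k hk
  obtain ⟨D, hcard, hD⟩ := h
  obtain ⟨r0, hr0⟩ := multiplier n D hcard hD p hp hpn
  have hcop : Nat.Coprime p (n ^ 2 + n + 1) := by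
    rw [Nat.Prime.coprime_iff_not_dvd hp]
    intro h
    have h1 : p ∣ n * (n + 1) := hpn.mul_right _
    have h2 : n ^ 2 + n + 1 = n * (n + 1) + 1 := by ring
    rw [h2] at h
    exact hp.one_lt.ne' (Nat.dvd_one.mp ((Nat.dvd_add_right h1).mp h))
  have hpu : IsUnit (p : ZMod (n ^ 2 + n + 1)) := (ZMod.isUnit_iff_coprime _ _).mpr hcop
  exact hsq (mann n hn D hcard hD p r0 hr0 hpu q hq hqv k hk)

/-- strip the even part of the exponent -/
theorem odd_exp {m : ℕ} (hm : 2 ≤ m) (k : ℕ) : ¬ 3 ∣ k → IsOrder (m ^ k) →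
    ∃ k' : ℕ, Odd k' ∧ ¬ 3 ∣ k' ∧ IsOrder (m ^ k') := by
  induction k using Nat.strong_induction_on with
  | _ k ih =>
    intro h3 hO
    rcases Nat.even_or_odd k with he | ho
    · obtain ⟨j, hj⟩ := he
      have hj0 : j ≠ 0 := by
        rintro rfl
        exact h3 (by simp [hj])
      have hj3 : ¬ 3 ∣ j := fun h => h3 (by rw [hj]; exact h.add h)
      have h2 : 2 ≤ m ^ j := hm.trans (Nat.le_self_pow hj0 m)
      have h4 : m ^ k = (m ^ j) ^ 2 := by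
        rw [← pow_mul, hj]
        congr 1
        ring
      rw [h4] at hO
      exact ih j (by omega) hj3 (descent h2 hO)
    · exact ⟨k, ho, h3, hO⟩

theorem not_isSquare_pow {m k : ℕ} (hm : 0 < m) (hk : Odd k) (h : ¬ IsSquare m) : ¬ IsSquare (m ^ k) := by
  rintro ⟨t, ht⟩
  obtain ⟨j, hj⟩ := hk
  apply h
  have h1 : m * (m ^ j) ^ 2 = t ^ 2 := by
    rw [sq t, ← ht, hj]
    ring
  have h2 : (m ^ j) ^ 2 ∣ t ^ 2 := ⟨m, by rw [← h1]; ring⟩
  obtain ⟨c, hc⟩ := (Nat.pow_dvd_pow_iff two_ne_zero).1 h2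
  refine ⟨c, ?_⟩
  have h3 : 0 < (m ^ j) ^ 2 := by positivity
  have h4 : (m ^ j) ^ 2 * m = (m ^ j) ^ 2 * (c * c) := by
    rw [hc] at h1
    linarith [h1]
  exact Nat.eq_of_mul_eq_mul_left h3 h4

theorem dvd_cyc {m k q : ℕ} (hk : ¬ 3 ∣ k) (h : q ∣ m ^ 2 + m + 1) : q ∣ (m ^ k) ^ 2 + m ^ k + 1 := by
  rw [← ZMod.natCast_eq_zero_iff] at h ⊢
  push_cast at h ⊢
  have h3 : (m : ZMod q) ^ 3 = 1 := by linear_combination ((m : ZMod q) - 1) * h
  obtain ⟨j, hj⟩ : ∃ j, k = 3 * j + k % 3 := ⟨k / 3, (Nat.div_add_mod k 3).symm⟩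
  have hm : (m : ZMod q) ^ k = (m : ZMod q) ^ (k % 3) := by
    conv_lhs => rw [hj, pow_add, pow_mul, h3, one_pow, one_mul]
  have hc : k % 3 = 1 ∨ k % 3 = 2 := by omega
  rw [hm]
  rcases hc with h1 | h1
  · rw [h1, pow_one]
    exact h
  · rw [h1]
    linear_combination h + (m : ZMod q) * h3

theorem mg_of_bad {m : ℕ} (hm : 2 ≤ m) (hsq : ¬ IsSquare m) (h : Bad m) : MG m := by
  obtain ⟨k0, h30, hO0⟩ := h
  obtain ⟨k, hk, h3, hO⟩ := odd_exp hm k0 h30 hO0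
  have hk0 : k ≠ 0 := by
    rintro rfl
    exact h3 (dvd_zero 3)
  have h2 : 2 ≤ m ^ k := hm.trans (Nat.le_self_pow hk0 m)
  have hM := mg_of_order h2 (not_isSquare_pow (by omega) hk hsq) hO
  intro p q hp hpm hq hqv
  exact hM p q hp (dvd_pow hpm hk0) hq (dvd_cyc h3 hqv)

theorem bad_of_sq {s : ℕ} (h : Bad (s ^ 2)) : Bad s := by
  obtain ⟨k, h3, hO⟩ := h
  refine ⟨2 * k, ?_, ?_⟩
  · intro h
    rcases (Nat.Prime.dvd_mul Nat.prime_three).1 h with h | h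
    · norm_num at h
    · exact h3 h
  · rwa [← pow_mul] at hO

end Pool.Agent.H37.PV
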