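import Pool.Agent.H24.FD.DegOne

/-!
PV QE: the quadratic extension `F(√l)`; for a prime `p ∤ 2 l` with `l` a square mod `p`: `2 np F p ≤ np F(√l) p`.

Adapted from `Pool/Agent/H24/FD/Quad.lean` (there: `F(ω)`, `QuadraticAlgebra F (-1) (-1)`, denominators 3).
Here `Q2 F l = QuadraticAlgebra F l 0`, elements `x + y √l`, `(⟨0,1⟩)^2 = l`. If `z = x + y √l` is integral then
`z + star z = 2 x` is integral, and `√l z = l y + x √l` is integral, so `2 l y` is integral. So use
`pA z = 2 l x`, `pB z = 2 l y` (both in `𝓞 F`), `2 l pA (z w) = pA z pA w + l pB z pB w`,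
`2 l pB (z w) = pA z pB w + pB z pA w`, and for `ζ` with `ζ² = l` in `ZMod p` the homomorphism
`z ↦ (φ (pA z) + φ (pB z) ζ) (2 l)⁻¹`; it sends `√l` to `ζ` and extends `φ`; `ζ ≠ -ζ`.
-/

set_option autoImplicit false

set_option linter.unusedSectionVars false

namespace Pool.Agent.H37.PV

open NumberField Pool.Agent.H24.FD

/-- `F(√l)` -/
abbrev Q2 (F : Type*) [Field F] (l : ℕ) : Type _ := QuadraticAlgebra F (l : F) 0

theorem q2_fact (F : Type*) [Field F] (l : ℕ) (h : ∀ x : F, x ^ 2 ≠ (l : F)) :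
    Fact (∀ r : F, r ^ 2 ≠ (l : F) + 0 * r) :=
  ⟨fun r hr => h r (by rw [hr]; ring)⟩

section

variable (F : Type*) [Field F] [NumberField F] (l : ℕ) [hF : Fact (∀ r : F, r ^ 2 ≠ (l : F) + 0 * r)]

private theorem q2_charZero : CharZero (Q2 F l) :=
  charZero_of_injective_algebraMap (R := F) (A := Q2 F l) (QuadraticAlgebra.algebraMap_injective)

theorem q2_numberField : NumberField (Q2 F l) := by
  have h0 := q2_charZero F l
  have h1 : Module.Finite F (Q2 F l) := inferInstance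
  have h2 : Module.Finite ℚ (Q2 F l) := Module.Finite.trans F (Q2 F l)
  exact { to_charZero := h0, to_finiteDimensional := h2 }

private theorem q2_star_int (z : Q2 F l) (hz : IsIntegral ℤ z) : IsIntegral ℤ (star z) :=
  map_isIntegral_int (starRingEnd (Q2 F l)) hz

private theorem q2_sqrt_int : IsIntegral ℤ (⟨0, 1⟩ : Q2 F l) := by
  refine ⟨Polynomial.X ^ 2 - Polynomial.C (l : ℤ), ?_, ?_⟩
  · monicity!
  · simp only [Polynomial.eval₂_sub, Polynomial.eval₂_pow, Polynomial.eval₂_X, Polynomial.eval₂_C]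
    ext <;> simp [pow_two]

/-- the trace is integral -/
private theorem q2_trace_int (z : Q2 F l) (hz : IsIntegral ℤ z) : IsIntegral ℤ (2 * z.re) := by
  have h1 : IsIntegral ℤ (z + star z) := hz.add (q2_star_int F l z hz)
  have h2 : z + star z = algebraMap F (Q2 F l) (2 * z.re) := by
    rw [QuadraticAlgebra.algebraMap_eq]
    ext
    · simp; ring
    · simp
  rw [h2] at h1
  exact (isIntegral_algebraMap_iff (QuadraticAlgebra.algebraMap_injective)).1 h1

private theorem q2_re_int (z : Q2 F l) (hz : IsIntegral ℤ z) :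
    IsIntegral ℤ (2 * l * z.re) ∧ IsIntegral ℤ (2 * l * z.im) := by
  have h1 := q2_trace_int F l z hz
  have h2 := q2_trace_int F l (⟨0, 1⟩ * z) ((q2_sqrt_int F l).mul hz)
  have h3 : ((⟨0, 1⟩ : Q2 F l) * z).re = l * z.im := by
    simp
  have hl : IsIntegral ℤ (l : F) := by
    have := isIntegral_algebraMap (R := ℤ) (A := F) (x := (l : ℤ))
    simpa using this
  rw [h3] at h2
  constructor
  · have h4 : 2 * l * z.re = l * (2 * z.re) := by ring
    rw [h4]
    exact hl.mul h1
  · have h4 : 2 * l * z.im = 2 * (l * z.im) := by ring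
    rw [h4]
    exact h2

/-- `2 l re z` -/
private noncomputable def pA (z : 𝓞 (Q2 F l)) : 𝓞 F := ⟨2 * l * (z : Q2 F l).re, (q2_re_int F l z z.2).1⟩

/-- `2 l im z` -/
private noncomputable def pB (z : 𝓞 (Q2 F l)) : 𝓞 F := ⟨2 * l * (z : Q2 F l).im, (q2_re_int F l z z.2).2⟩

private theorem pA_coe (z : 𝓞 (Q2 F l)) :
    algebraMap (𝓞 F) F (pA F l z) = 2 * l * (algebraMap (𝓞 (Q2 F l)) (Q2 F l) z).re := rfl

private theorem pB_coe (z : 𝓞 (Q2 F l)) :
    algebraMap (𝓞 F) F (pB F l z) = 2 * l * (algebraMap (𝓞 (Q2 F l)) (Q2 F l) z).im := rfl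

private theorem am2 : algebraMap (𝓞 F) F 2 = 2 := map_ofNat _ 2

private theorem aml : algebraMap (𝓞 F) F (l : 𝓞 F) = (l : F) := map_natCast _ l

private theorem pA_one : pA F l 1 = 2 * l := by
  apply RingOfIntegers.coe_injective
  rw [pA_coe, map_one, map_mul, am2, aml, QuadraticAlgebra.re_one, mul_one]

private theorem pB_one : pB F l 1 = 0 := by
  apply RingOfIntegers.coe_injective
  rw [pB_coe, map_one, map_zero, QuadraticAlgebra.im_one, mul_zero]

private theorem pA_zero : pA F l 0 = 0 := by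
  apply RingOfIntegers.coe_injective
  rw [pA_coe]
  simp

private theorem pB_zero : pB F l 0 = 0 := by
  apply RingOfIntegers.coe_injective
  rw [pB_coe]
  simp

private theorem pA_add (z w : 𝓞 (Q2 F l)) : pA F l (z + w) = pA F l z + pA F l w := by
  apply RingOfIntegers.coe_injective
  rw [map_add, pA_coe, pA_coe, pA_coe]
  simp
  ring

private theorem pB_add (z w : 𝓞 (Q2 F l)) : pB F l (z + w) = pB F l z + pB F l w := by
  apply RingOfIntegers.coe_injective
  rw [map_add, pB_coe, pB_coe, pB_coe]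
  simp
  ring

private theorem pA_mul (z w : 𝓞 (Q2 F l)) :
    2 * (l : 𝓞 F) * pA F l (z * w) = pA F l z * pA F l w + l * (pB F l z * pB F l w) := by
  apply RingOfIntegers.coe_injective
  rw [map_add, map_mul, map_mul, map_mul, map_mul, map_mul, pA_coe, pA_coe, pA_coe, pB_coe, pB_coe,
    am2, aml]
  simp
  ring

private theorem pB_mul (z w : 𝓞 (Q2 F l)) :
    2 * (l : 𝓞 F) * pB F l (z * w) = pA F l z * pB F l w + pB F l z * pA F l w := by
  apply RingOfIntegers.coe_injective
  rw [map_add, map_mul, map_mul, map_mul, map_mul, pA_coe, pA_coe, pB_coe, pB_coe, pB_coe, am2, aml]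
  simp
  ring

/-- the extension of a homomorphism -/
private noncomputable def pext (p : ℕ) [Fact p.Prime] (h2 : (2 : ZMod p) ≠ 0) (hl : (l : ZMod p) ≠ 0)
    (ζ : ZMod p) (hζ : ζ ^ 2 = l) (φ : 𝓞 F →+* ZMod p) : 𝓞 (Q2 F l) →+* ZMod p where
  toFun z := (φ (pA F l z) + φ (pB F l z) * ζ) * (2 * (l : ZMod p))⁻¹
  map_one' := by
    rw [pA_one, pB_one, map_zero, map_mul, map_ofNat, map_natCast, zero_mul, add_zero,
      mul_inv_cancel₀ (mul_ne_zero h2 hl)]
  map_zero' := by
    rw [pA_zero, pB_zero, map_zero]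
    ring
  map_add' z w := by
    rw [pA_add, pB_add, map_add, map_add]
    ring
  map_mul' z w := by
    have h1 := congrArg φ (pA_mul F l z w)
    have h2' := congrArg φ (pB_mul F l z w)
    rw [map_mul, map_mul, map_ofNat, map_natCast, map_add, map_mul, map_mul, map_mul, map_natCast] at h1
    rw [map_mul, map_mul, map_ofNat, map_natCast, map_add, map_mul, map_mul] at h2'
    have hk : (2 * (l : ZMod p)) ≠ 0 := mul_ne_zero h2 hl
    have h4 : φ (pA F l (z * w)) =
        (φ (pA F l z) * φ (pA F l w) + l * (φ (pB F l z) * φ (pB F l w))) * (2 * (l : ZMod p))⁻¹ := by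
      rw [← h1]
      field_simp
    have h5 : φ (pB F l (z * w)) = (φ (pA F l z) * φ (pB F l w) + φ (pB F l z) * φ (pA F l w)) *
        (2 * (l : ZMod p))⁻¹ := by
      rw [← h2']
      field_simp
    rw [h4, h5]
    linear_combination (-(φ (pB F l z) * φ (pB F l w) * (2 * (l : ZMod p))⁻¹ * (2 * (l : ZMod p))⁻¹)) * hζ

private theorem pext_apply (p : ℕ) [Fact p.Prime] (h2 : (2 : ZMod p) ≠ 0) (hl : (l : ZMod p) ≠ 0)
    (ζ : ZMod p) (hζ : ζ ^ 2 = l) (φ : 𝓞 F →+* ZMod p) (z : 𝓞 (Q2 F l)) :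
    pext F l p h2 hl ζ hζ φ z = (φ (pA F l z) + φ (pB F l z) * ζ) * (2 * (l : ZMod p))⁻¹ := rfl

/-- `√l` as an integer of `F(√l)` -/
private noncomputable def pw : 𝓞 (Q2 F l) := ⟨⟨0, 1⟩, q2_sqrt_int F l⟩

private theorem pext_w (p : ℕ) [Fact p.Prime] (h2 : (2 : ZMod p) ≠ 0) (hl : (l : ZMod p) ≠ 0)
    (ζ : ZMod p) (hζ : ζ ^ 2 = l) (φ : 𝓞 F →+* ZMod p) : pext F l p h2 hl ζ hζ φ (pw F l) = ζ := by
  have h3 : pA F l (pw F l) = 0 := by
    apply RingOfIntegers.coe_injective
    rw [pA_coe]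
    simp [pw]
  have h4 : pB F l (pw F l) = 2 * l := by
    apply RingOfIntegers.coe_injective
    rw [pB_coe, map_mul, am2, aml]
    simp [pw]
  have hk : (2 * (l : ZMod p)) ≠ 0 := mul_ne_zero h2 hl
  rw [pext_apply, h3, h4, map_zero, map_mul, map_ofNat, map_natCast, zero_add]
  field_simp

/-- the inclusion of the integers -/
private noncomputable def pin (x : 𝓞 F) : 𝓞 (Q2 F l) :=
  ⟨⟨(x : F), 0⟩, by
    have h1 : IsIntegral ℤ (algebraMap F (Q2 F l) (x : F)) :=
      (isIntegral_algebraMap_iff (QuadraticAlgebra.algebraMap_injective)).2 x.2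
    exact h1⟩

private theorem pext_i (p : ℕ) [Fact p.Prime] (h2 : (2 : ZMod p) ≠ 0) (hl : (l : ZMod p) ≠ 0)
    (ζ : ZMod p) (hζ : ζ ^ 2 = l) (φ : 𝓞 F →+* ZMod p) (x : 𝓞 F) :
    pext F l p h2 hl ζ hζ φ (pin F l x) = φ x := by
  have h3 : pA F l (pin F l x) = 2 * l * x := by
    apply RingOfIntegers.coe_injective
    rw [pA_coe, map_mul, map_mul, am2, aml]
    simp [pin]
  have h4 : pB F l (pin F l x) = 0 := by
    apply RingOfIntegers.coe_injective
    rw [pB_coe]
    simp [pin]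
  have hk : (2 * (l : ZMod p)) ≠ 0 := mul_ne_zero h2 hl
  rw [pext_apply, h3, h4, map_zero, map_mul, map_mul, map_ofNat, map_natCast, zero_mul, add_zero]
  field_simp

theorem two_np_le (hl : 0 < l) (p : ℕ) (hp : p.Prime) (h2 : p ≠ 2) (hpl : ¬ p ∣ l)
    (hsq : IsSquare ((l : ℕ) : ZMod p)) : 2 * np F p ≤ np (Q2 F l) p := by
  have hpf : Fact p.Prime := ⟨hp⟩
  have hnf := q2_numberField F l
  have h2' : (2 : ZMod p) ≠ 0 := by
    intro h
    have h1 : ((2 : ℕ) : ZMod p) = 0 := by exact_mod_cast h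
    rw [ZMod.natCast_eq_zero_iff] at h1
    exact h2 ((Nat.prime_dvd_prime_iff_eq hp Nat.prime_two).1 h1)
  have hl' : (l : ZMod p) ≠ 0 := by
    intro h
    rw [ZMod.natCast_eq_zero_iff] at h
    exact hpl h
  obtain ⟨ζ, hζ0⟩ := hsq
  have hζ : ζ ^ 2 = l := by rw [hζ0, pow_two]
  have hζ' : (-ζ) ^ 2 = l := by rw [neg_sq, hζ]
  have hne : ζ ≠ -ζ := by
    intro h
    have h5 : 2 * ζ = 0 := by linear_combination h
    rcases mul_eq_zero.1 h5 with h6 | h6
    · exact h2' h6
    · rw [h6] at hζ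
      exact hl' (by rw [← hζ]; ring)
  have hf1 := np_finite F p hp
  have hf2 := np_finite (Q2 F l) p hp
  have hinj : Function.Injective (fun x : (𝓞 F →+* ZMod p) × Bool =>
      if x.2 then pext F l p h2' hl' ζ hζ x.1 else pext F l p h2' hl' (-ζ) hζ' x.1) := by
    rintro ⟨φ, i⟩ ⟨ψ, j⟩ h
    have hw := congrArg (fun f : 𝓞 (Q2 F l) →+* ZMod p => f (pw F l)) h
    have hij : i = j := by
      cases i <;> cases j <;> simp only [pext_w, if_true, if_false, Bool.false_eq_true] at hw ⊢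
      · exact absurd hw.symm hne
      · exact absurd hw hne
    subst hij
    have hφ : φ = ψ := by
      ext x
      have hx := congrArg (fun f : 𝓞 (Q2 F l) →+* ZMod p => f (pin F l x)) h
      cases i <;> simpa only [pext_i, if_true, if_false, Bool.false_eq_true] using hx
    rw [hφ]
  have h4 := Nat.card_le_card_of_injective _ hinj
  rw [Nat.card_prod] at h4
  have h5 : Nat.card Bool = 2 := by simp
  rw [h5] at h4
  rw [np, np]
  omega

end

end Pool.Agent.H37.PV
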